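import Mathlib

set_option autoImplicit false

open MeasureTheory ProbabilityTheory Filter
open scoped InnerProductSpace

namespace Pool.Agent.helper98.DPZ

theorem psd_charFun {E ι : Type*} [NormedAddCommGroup E] [InnerProductSpace ℝ E]
    [MeasurableSpace E] [BorelSpace E] [SecondCountableTopology E] (γ : Measure E)
    [IsProbabilityMeasure γ] (u : ι → E) (s : Finset ι) (a : ι → ℝ) :
    0 ≤ ∑ x ∈ s, ∑ y ∈ s, a x * a y * (charFun γ (u x - u y)).re := by
  have hint : ∀ t : E, Integrable (fun ξ => Complex.exp (⟪ξ, t⟫_ℝ * Complex.I)) γ := by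
    intro t
    refine (integrable_const (1:ℝ)).mono' (by fun_prop) ?_
    filter_upwards with ξ
    rw [Complex.norm_exp_ofReal_mul_I]
  have h1 : ∀ x y, (charFun γ (u x - u y)).re =
      ∫ ξ, (Complex.exp (⟪ξ, u x - u y⟫_ℝ * Complex.I)).re ∂γ := by
    intro x y
    rw [charFun_apply, ← RCLike.re_eq_complex_re, ← integral_re (hint _)]
  simp_rw [h1]
  have hintr : ∀ t : E, Integrable (fun ξ => (Complex.exp (⟪ξ, t⟫_ℝ * Complex.I)).re) γ :=
    fun t => (hint t).re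
  have h2 : ∑ x ∈ s, ∑ y ∈ s, a x * a y * ∫ ξ, (Complex.exp (⟪ξ, u x - u y⟫_ℝ * Complex.I)).re ∂γ
      = ∫ ξ, ∑ x ∈ s, ∑ y ∈ s, a x * a y * (Complex.exp (⟪ξ, u x - u y⟫_ℝ * Complex.I)).re ∂γ := by
    rw [integral_finsetSum]
    · refine Finset.sum_congr rfl fun x _ => ?_
      rw [integral_finsetSum]
      · refine Finset.sum_congr rfl fun y _ => ?_
        rw [integral_const_mul]
      · exact fun y _ => (hintr _).const_mul _
    · exact fun x _ => integrable_finsetSum _ fun y _ => (hintr _).const_mul _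
  rw [h2]
  refine integral_nonneg fun ξ => ?_
  have h3 : ∑ x ∈ s, ∑ y ∈ s, a x * a y * (Complex.exp (⟪ξ, u x - u y⟫_ℝ * Complex.I)).re =
      (∑ x ∈ s, a x * Real.cos ⟪ξ, u x⟫_ℝ) ^ 2 + (∑ x ∈ s, a x * Real.sin ⟪ξ, u x⟫_ℝ) ^ 2 := by
    rw [sq, sq, Finset.sum_mul_sum, Finset.sum_mul_sum, ← Finset.sum_add_distrib]
    refine Finset.sum_congr rfl fun x _ => ?_
    rw [← Finset.sum_add_distrib]
    refine Finset.sum_congr rfl fun y _ => ?_
    rw [Complex.exp_ofReal_mul_I_re, inner_sub_right, Real.cos_sub]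
    ring
  simp only [Pi.zero_apply]
  rw [h3]
  positivity

/-- squared Euclidean norm on `ℤ³` -/
noncomputable def nsq (x : Fin 3 → ℤ) : ℝ := ∑ i : Fin 3, ((x i : ℝ)) ^ 2

theorem nsq_nonneg (x : Fin 3 → ℤ) : 0 ≤ nsq x := Finset.sum_nonneg fun _ _ => sq_nonneg _

theorem psd_gauss (t : ℝ) (ht : 0 ≤ t) (s : Finset (Fin 3 → ℤ)) (a : (Fin 3 → ℤ) → ℝ) :
    0 ≤ ∑ x ∈ s, ∑ y ∈ s, a x * a y * Real.exp (-t * nsq (x - y)) := by
  have h := psd_charFun (stdGaussian (EuclideanSpace ℝ (Fin 3)))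
    (fun x : Fin 3 → ℤ => (WithLp.toLp 2 (fun i => √(2 * t) * (x i : ℝ)) : EuclideanSpace ℝ (Fin 3))) s a
  convert h using 5 with x _ y _
  rw [charFun_stdGaussian]
  have : ‖(WithLp.toLp 2 (fun i => √(2 * t) * (x i : ℝ)) : EuclideanSpace ℝ (Fin 3)) -
      (WithLp.toLp 2 (fun i => √(2 * t) * (y i : ℝ)) : EuclideanSpace ℝ (Fin 3))‖ ^ 2 = 2 * t * nsq (x - y) := by
    rw [EuclideanSpace.real_norm_sq_eq, nsq, Finset.mul_sum]
    refine Finset.sum_congr rfl fun i _ => ?_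
    simp only [PiLp.sub_apply, Pi.sub_apply, Int.cast_sub]
    rw [← mul_sub, mul_pow, Real.sq_sqrt (by positivity)]
  have h4 : (-(‖(WithLp.toLp 2 (fun i => √(2 * t) * (x i : ℝ)) : EuclideanSpace ℝ (Fin 3)) -
      (WithLp.toLp 2 (fun i => √(2 * t) * (y i : ℝ)) : EuclideanSpace ℝ (Fin 3))‖ : ℂ) ^ 2 / 2)
       = ((-t * nsq (x - y) : ℝ) : ℂ) := by
    rw [← Complex.ofReal_pow, this]
    push_cast
    ring
  rw [h4, ← Complex.ofReal_exp, Complex.ofReal_re]

/-- The correlation function `h(x) = 1/(1+|x|²)`. -/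
noncomputable def hh (x : Fin 3 → ℤ) : ℝ := (1 + nsq x)⁻¹

theorem psd_hh (s : Finset (Fin 3 → ℤ)) (a : (Fin 3 → ℤ) → ℝ) :
    0 ≤ ∑ x ∈ s, ∑ y ∈ s, a x * a y * hh (x - y) := by
  have h1 : ∀ r : ℝ, 0 ≤ r → (1 + r)⁻¹ = ∫ t in Set.Ioi (0:ℝ), Real.exp (-(1 + r) * t) := by
    intro r hr
    rw [integral_exp_mul_Ioi (by linarith)]
    simp only [mul_zero, Real.exp_zero]
    rw [neg_div_neg_eq, one_div]
  have hI : ∀ r : ℝ, 0 ≤ r → IntegrableOn (fun t => Real.exp (-(1 + r) * t)) (Set.Ioi (0:ℝ)) :=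
    fun r hr => integrableOn_exp_mul_Ioi (by linarith) 0
  have h2 : ∑ x ∈ s, ∑ y ∈ s, a x * a y * hh (x - y) =
      ∫ t in Set.Ioi (0:ℝ), ∑ x ∈ s, ∑ y ∈ s, a x * a y * Real.exp (-(1 + nsq (x - y)) * t) := by
    rw [integral_finsetSum]
    · refine Finset.sum_congr rfl fun x _ => ?_
      rw [integral_finsetSum]
      · refine Finset.sum_congr rfl fun y _ => ?_
        rw [integral_const_mul, hh, h1 _ (nsq_nonneg _)]
      · exact fun y _ => (hI _ (nsq_nonneg _)).const_mul _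
    · exact fun x _ => integrable_finsetSum _ fun y _ => (hI _ (nsq_nonneg _)).const_mul _
  rw [h2]
  refine setIntegral_nonneg measurableSet_Ioi fun t ht => ?_
  have ht' : 0 ≤ t := le_of_lt ht
  have h3 : ∑ x ∈ s, ∑ y ∈ s, a x * a y * Real.exp (-(1 + nsq (x - y)) * t) =
      Real.exp (-t) * ∑ x ∈ s, ∑ y ∈ s, a x * a y * Real.exp (-t * nsq (x - y)) := by
    rw [Finset.mul_sum]
    refine Finset.sum_congr rfl fun x _ => ?_
    rw [Finset.mul_sum]
    refine Finset.sum_congr rfl fun y _ => ?_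
    rw [show -(1 + nsq (x - y)) * t = -t + -t * nsq (x - y) by ring, Real.exp_add]
    ring
  rw [h3]
  exact mul_nonneg (Real.exp_pos _).le (psd_gauss t ht' s a)

theorem nsq_neg (x : Fin 3 → ℤ) : nsq (-x) = nsq x := by
  simp [nsq]

theorem hh_neg (x : Fin 3 → ℤ) : hh (-x) = hh x := by
  simp [hh, nsq_neg]

theorem hh_zero : hh 0 = 1 := by
  simp [hh, nsq]

theorem hh_nonneg (x : Fin 3 → ℤ) : 0 ≤ hh x := by
  have := nsq_nonneg x
  unfold hh; positivity

theorem hh_le_one (x : Fin 3 → ℤ) : hh x ≤ 1 := by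
  have := nsq_nonneg x
  unfold hh
  exact inv_le_one_of_one_le₀ (by linarith)

theorem tendsto_nsq : Tendsto nsq cofinite atTop := by
  rw [tendsto_atTop]
  intro b
  rw [eventually_cofinite]
  obtain ⟨m, hm⟩ := exists_nat_ge b
  refine Set.Finite.subset (Set.finite_Icc (fun _ : Fin 3 => -(m:ℤ)) (fun _ => (m:ℤ))) ?_
  intro x hx
  have hx' : nsq x < b := by simpa using hx
  have key : ∀ i, |x i| ≤ (m:ℤ) := by
    intro i
    by_contra hcon
    push Not at hcon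
    have h1 : ((x i : ℝ)) ^ 2 ≤ nsq x :=
      Finset.single_le_sum (f := fun i => ((x i : ℝ)) ^ 2) (fun i _ => sq_nonneg _) (Finset.mem_univ i)
    have h2 : (m:ℝ) + 1 ≤ |(x i : ℝ)| := by
      have : (m:ℤ) + 1 ≤ |x i| := hcon
      exact_mod_cast this
    have h3 : (m:ℝ) ≤ (x i : ℝ) ^ 2 := by
      rw [← sq_abs]
      have : (0:ℝ) ≤ m := Nat.cast_nonneg m
      nlinarith
    linarith
  exact ⟨fun i => (abs_le.mp (key i)).1, fun i => (abs_le.mp (key i)).2⟩

theorem tendsto_hh : Tendsto (fun x : Fin 3 → ℤ => hh x * ∑ i : Fin 3, ((x i : ℝ)) ^ 2) cofinite (nhds 1) := by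
  have h1 : Tendsto (fun r : ℝ => (1 + r)⁻¹ * r) atTop (nhds 1) := by
    have h2 : Tendsto (fun r : ℝ => 1 - (1 + r)⁻¹) atTop (nhds (1 - 0)) :=
      tendsto_const_nhds.sub (tendsto_inv_atTop_zero.comp (tendsto_atTop_add_const_left _ _ tendsto_id))
    rw [sub_zero] at h2
    refine h2.congr' ?_
    filter_upwards [eventually_ge_atTop 0] with r hr
    have : (1 + r) ≠ 0 := by positivity
    field_simp
    ring
  exact h1.comp tendsto_nsq

end Pool.Agent.helper98.DPZ
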