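import Mathlib
import Pool.Agent.helper98.DPZ.Kernel

set_option autoImplicit false

open MeasureTheory ProbabilityTheory Filter

namespace Pool.Agent.helper98.DPZ

theorem quart (v : ℝ) (hv : 21/25 ≤ v) :
    1 ≤ v * (1 - (v^4-1)/4 + 5/32*(v^4-1)^2 - 15/128*(v^4-1)^3 + (v^4-1)^4/4) := by
  obtain ⟨w, hw, rfl⟩ : ∃ w : ℝ, 0 ≤ w ∧ v = w + 21/25 := ⟨v - 21/25, by linarith, by ring⟩
  have h : (w + 21/25) * (1 - ((w + 21/25)^4-1)/4 + 5/32*((w + 21/25)^4-1)^2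
      - 15/128*((w + 21/25)^4-1)^3 + ((w + 21/25)^4-1)^4/4) - 1 =
      (w + 21/25 - 1)^4 * ((79161375801067938997/11920928955078125000) + (23805093622234385283/238418579101562500)*w + (16599412300110132477/38146972656250000)*w^2 + (1642955187972236819/1525878906250000)*w^3 + (11044016200541841/6103515625000)*w^4 + (10887258948330331/4882812500000)*w^5 + (816703656389971/390625000000)*w^6 + (23688449389751/15625000000)*w^7 + (1064364660209/1250000000)*w^8 + (3660421981/10000000)*w^9 + (1828874/15625)*w^10 + (16462/625)*w^11 + (373/100)*w^12 + (1/4)*w^13) := by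
    ring
  have h2 : 0 ≤ (w + 21/25 - 1)^4 * ((79161375801067938997/11920928955078125000) + (23805093622234385283/238418579101562500)*w + (16599412300110132477/38146972656250000)*w^2 + (1642955187972236819/1525878906250000)*w^3 + (11044016200541841/6103515625000)*w^4 + (10887258948330331/4882812500000)*w^5 + (816703656389971/390625000000)*w^6 + (23688449389751/15625000000)*w^7 + (1064364660209/1250000000)*w^8 + (3660421981/10000000)*w^9 + (1828874/15625)*w^10 + (16462/625)*w^11 + (373/100)*w^12 + (1/4)*w^13) := by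
    have h4 : 0 ≤ (w + 21/25 - 1)^4 := by positivity
    positivity
  linarith

theorem rpow_quart (s t : ℝ) (hs : 0 < s) (ht : -(s / 2) ≤ t) :
    (s + t) ^ (-(1/4) : ℝ) ≤ s ^ (-(1/4) : ℝ) *
      (1 - (t/s)/4 + 5/32*(t/s)^2 - 15/128*(t/s)^3 + (t/s)^4/4) := by
  have hτ : -(1/2) ≤ t / s := by
    rw [le_div_iff₀ hs]; linarith
  obtain ⟨τ, hτd⟩ : ∃ τ, τ = t / s := ⟨_, rfl⟩
  rw [← hτd] at hτ ⊢
  have h1 : s + t = s * (1 + τ) := by
    rw [hτd]; field_simp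
  have h1p : 0 < 1 + τ := by linarith
  rw [h1, Real.mul_rpow hs.le h1p.le]
  refine mul_le_mul_of_nonneg_left ?_ (Real.rpow_nonneg hs.le _)
  obtain ⟨v, hvd⟩ : ∃ v, v = (1 + τ) ^ ((1/4) : ℝ) := ⟨_, rfl⟩
  have hv0 : 0 < v := by rw [hvd]; exact Real.rpow_pos_of_pos h1p _
  have hv4 : v ^ 4 = 1 + τ := by
    rw [hvd, ← Real.rpow_natCast, ← Real.rpow_mul h1p.le]
    norm_num
  have hvinv : (1 + τ) ^ (-(1/4) : ℝ) = v⁻¹ := by
    rw [Real.rpow_neg h1p.le, hvd]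
  rw [hvinv]
  have hv : 21/25 ≤ v := by
    by_contra hcon
    push Not at hcon
    have : v ^ 4 ≤ (21/25) ^ 4 := by gcongr
    norm_num at this
    linarith
  have := quart v hv
  have hτv : τ = v ^ 4 - 1 := by linarith
  rw [hτv, inv_le_iff_one_le_mul₀' hv0]
  exact this

/-- lattice steps -/
def stp (e : Fin 3 × Bool) : Fin 3 → ℤ := Pi.single e.1 (if e.2 then (1 : ℤ) else -1)

theorem nsq_eq (z : Fin 3 → ℤ) : nsq z = (z 0 : ℝ)^2 + (z 1 : ℝ)^2 + (z 2 : ℝ)^2 := by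
  simp [nsq, Fin.sum_univ_three]

theorem nsq_add_stp (z : Fin 3 → ℤ) (i : Fin 3) (b : Bool) :
    nsq (z + stp (i, b)) = nsq z + (1 + (if b then 2 else -2) * (z i : ℝ)) := by
  rw [nsq_eq, nsq_eq]
  fin_cases i <;> cases b <;> simp [stp] <;> ring

/-- the superharmonic function -/
noncomputable def phi (z : Fin 3 → ℤ) : ℝ := (100 + nsq z) ^ (-(1/4) : ℝ)

theorem phi_pos (z : Fin 3 → ℤ) : 0 < phi z := by
  have := nsq_nonneg z
  exact Real.rpow_pos_of_pos (by linarith) _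

theorem two_abs_le (z : Fin 3 → ℤ) (i : Fin 3) : 1 + 2 * |(z i : ℝ)| ≤ (100 + nsq z) / 2 := by
  have h1 : (z i : ℝ) ^ 2 ≤ nsq z := by
    refine Finset.single_le_sum (f := fun i => ((z i : ℝ)) ^ 2) (fun i _ => sq_nonneg _) (Finset.mem_univ i)
  have h2 : |(z i : ℝ)| ^ 2 = (z i : ℝ)^2 := sq_abs _
  nlinarith [sq_nonneg (|(z i : ℝ)| - 2)]

theorem key_poly (s a b c : ℝ) (hs : 100 ≤ s) (ha0 : 0 ≤ a) (hb0 : 0 ≤ b) (hc0 : 0 ≤ c)
    (hy : a + b + c = s - 100) :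
    (2 - 1/(2*s) + 5/32*(2+8*a)/s^2 - 15/128*(2+24*a)/s^3 + (2+48*a+32*a^2)/(4*s^4))
       + (2 - 1/(2*s) + 5/32*(2+8*b)/s^2 - 15/128*(2+24*b)/s^3 + (2+48*b+32*b^2)/(4*s^4))
       + (2 - 1/(2*s) + 5/32*(2+8*c)/s^2 - 15/128*(2+24*c)/s^3 + (2+48*c+32*c^2)/(4*s^4))
       ≤ 6 * (1 - 1 / (40 * s)) := by
  have hs0 : 0 < s := by linarith
  have hq : a^2 + b^2 + c^2 ≤ s^2 := by
    have h1 : a^2 + b^2 + c^2 ≤ (a+b+c)^2 := by
      nlinarith [mul_nonneg ha0 hb0, mul_nonneg ha0 hc0, mul_nonneg hb0 hc0]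
    have h2 : (a+b+c)^2 ≤ s^2 := by
      apply pow_le_pow_left₀ (by positivity) (by linarith)
    linarith
  have e1 : (2 - 1/(2*s) + 5/32*(2+8*a)/s^2 - 15/128*(2+24*a)/s^3 + (2+48*a+32*a^2)/(4*s^4))
       + (2 - 1/(2*s) + 5/32*(2+8*b)/s^2 - 15/128*(2+24*b)/s^3 + (2+48*b+32*b^2)/(4*s^4))
       + (2 - 1/(2*s) + 5/32*(2+8*c)/s^2 - 15/128*(2+24*c)/s^3 + (2+48*c+32*c^2)/(4*s^4))
       = 6 - (6/4)/s + (5/32)*(6+8*(a+b+c))/s^2 - (15/128)*(6+24*(a+b+c))/s^3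
         + (6+48*(a+b+c)+32*(a^2+b^2+c^2))/(4*s^4) := by
    field_simp
    ring
  rw [e1, hy]
  have e2 : 6 * (1 - 1 / (40 * s)) = 6 - (6/40)/s := by field_simp
  rw [e2]
  have hs4 : (0:ℝ) < s^4 := by positivity
  have t1 : (5/32)*(6+8*(s-100))/s^2 ≤ (5/32)*(6+8*s)/s^2 := by
    gcongr; linarith
  have t2 : 0 ≤ (15/128)*(6+24*(s-100))/s^3 := by
    apply div_nonneg
    · linarith
    · positivity
  have t3 : (6+48*(s-100)+32*(a^2+b^2+c^2))/(4*s^4) ≤ (6+48*s+32*s^2)/(4*s^4) := by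
    gcongr; linarith
  have e4 : (6 - (6/40)/s) - (6 - (6/4)/s + (5/32)*(6+8*s)/s^2 + (6+48*s+32*s^2)/(4*s^4))
      = (s^3 * (1/10) - s^2 * (143/16) - s * 12 - 3/2) / s^4 := by
    field_simp
    ring
  have e5 : 0 ≤ (s^3 * (1/10) - s^2 * (143/16) - s * 12 - 3/2) := by
    obtain ⟨r, hr, rfl⟩ : ∃ r : ℝ, 0 ≤ r ∧ s = r + 100 := ⟨s - 100, by linarith, by ring⟩
    have : ((r+100)^3 * (1/10) - (r+100)^2 * (143/16) - (r+100) * 12 - 3/2) =
      r^3 * (1/10) + r^2 * (30 - 143/16) + r * (3000 - 14300/8 - 12) + (100000 - 1430000/16 - 1200 - 3/2) := by ring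
    rw [this]
    positivity
  have e6 := div_nonneg e5 hs4.le
  linarith

theorem superharm (z : Fin 3 → ℤ) :
    (1/6) * ∑ e : Fin 3 × Bool, phi (z + stp e) ≤ phi z * (1 - 1 / (40 * (100 + nsq z))) := by
  have hn := nsq_nonneg z
  obtain ⟨s, hsd⟩ : ∃ s, s = 100 + nsq z := ⟨_, rfl⟩
  have hs : 100 ≤ s := by linarith
  have hs0 : 0 < s := by linarith
  have hphi : phi z = s ^ (-(1/4) : ℝ) := by rw [phi, hsd]
  have hg0 : 0 < s ^ (-(1/4) : ℝ) := Real.rpow_pos_of_pos hs0 _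
  have h1 : ∀ (i : Fin 3) (b : Bool), phi (z + stp (i, b)) ≤ s ^ (-(1/4) : ℝ) *
      (1 - ((1 + (if b then 2 else -2) * (z i : ℝ))/s)/4
        + 5/32*((1 + (if b then 2 else -2) * (z i : ℝ))/s)^2
        - 15/128*((1 + (if b then 2 else -2) * (z i : ℝ))/s)^3
        + ((1 + (if b then 2 else -2) * (z i : ℝ))/s)^4/4) := by
    intro i b
    have h2 := rpow_quart s (1 + (if b then 2 else -2) * (z i : ℝ)) hs0 (by
      have h3 := two_abs_le z i
      rw [← hsd] at h3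
      have h4 := neg_abs_le (z i : ℝ)
      have h5 := le_abs_self (z i : ℝ)
      cases b <;> simp <;> linarith)
    have h3 : phi (z + stp (i, b)) = (s + (1 + (if b then 2 else -2) * (z i : ℝ))) ^ (-(1/4) : ℝ) := by
      rw [phi, nsq_add_stp, hsd, add_assoc]
    rw [h3]
    exact h2
  have hsum : ∑ e : Fin 3 × Bool, phi (z + stp e) ≤ ∑ i : Fin 3, ∑ b : Bool, s ^ (-(1/4) : ℝ) *
      (1 - ((1 + (if b then 2 else -2) * (z i : ℝ))/s)/4
        + 5/32*((1 + (if b then 2 else -2) * (z i : ℝ))/s)^2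
        - 15/128*((1 + (if b then 2 else -2) * (z i : ℝ))/s)^3
        + ((1 + (if b then 2 else -2) * (z i : ℝ))/s)^4/4) := by
    rw [Fintype.sum_prod_type]
    exact Finset.sum_le_sum fun i _ => Finset.sum_le_sum fun b _ => h1 i b
  have hpoly : ∀ y : ℝ, ∑ b : Bool, s ^ (-(1/4) : ℝ) *
      (1 - ((1 + (if b then 2 else -2) * y)/s)/4
        + 5/32*((1 + (if b then 2 else -2) * y)/s)^2
        - 15/128*((1 + (if b then 2 else -2) * y)/s)^3
        + ((1 + (if b then 2 else -2) * y)/s)^4/4) =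
      s ^ (-(1/4) : ℝ) * (2 - 1/(2*s) + 5/32*(2+8*y^2)/s^2 - 15/128*(2+24*y^2)/s^3
        + (2+48*y^2+32*y^4)/(4*s^4)) := by
    intro y
    simp only [Fintype.sum_bool, if_true, Bool.false_eq_true, if_false]
    field_simp
    ring
  simp_rw [hpoly] at hsum
  rw [← Finset.mul_sum] at hsum
  have hy : (z 0 : ℝ)^2 + (z 1 : ℝ)^2 + (z 2 : ℝ)^2 = s - 100 := by rw [hsd, nsq_eq]; ring
  have hkey : ∑ i : Fin 3, (2 - 1/(2*s) + 5/32*(2+8*(z i : ℝ)^2)/s^2 - 15/128*(2+24*(z i : ℝ)^2)/s^3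
        + (2+48*(z i : ℝ)^2+32*(z i : ℝ)^4)/(4*s^4)) ≤ 6 * (1 - 1 / (40 * s)) := by
    rw [Fin.sum_univ_three]
    have h4 : ∀ i, (z i : ℝ)^4 = ((z i : ℝ)^2)^2 := fun i => by ring
    rw [h4 0, h4 1, h4 2]
    exact key_poly s _ _ _ hs (sq_nonneg _) (sq_nonneg _) (sq_nonneg _) hy
  calc (1/6) * ∑ e : Fin 3 × Bool, phi (z + stp e)
      ≤ (1/6) * (s ^ (-(1/4) : ℝ) * (6 * (1 - 1 / (40 * s)))) := by
        refine mul_le_mul_of_nonneg_left (hsum.trans ?_) (by norm_num)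
        exact mul_le_mul_of_nonneg_left hkey hg0.le
    _ = phi z * (1 - 1 / (40 * (100 + nsq z))) := by
        rw [hphi, ← hsd]; ring

theorem neg_stp (e : Fin 3 × Bool) : -stp e = stp (e.1, !e.2) := by
  obtain ⟨i, b⟩ := e
  cases b <;> simp [stp, ← Pi.single_neg]

theorem sum_neg_stp (f : (Fin 3 → ℤ) → ℝ) (z : Fin 3 → ℤ) :
    ∑ e : Fin 3 × Bool, f (z - stp e) = ∑ e : Fin 3 × Bool, f (z + stp e) := by
  simp_rw [sub_eq_add_neg, neg_stp]
  rw [Fintype.sum_prod_type, Fintype.sum_prod_type]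
  refine Finset.sum_congr rfl fun i _ => ?_
  simp only [Fintype.sum_bool, Bool.not_true, Bool.not_false]
  ring

theorem superharm' (z : Fin 3 → ℤ) :
    (1/6) * ∑ e : Fin 3 × Bool, phi (z - stp e) ≤ phi z := by
  rw [sum_neg_stp]
  refine (superharm z).trans ?_
  have h1 := phi_pos z
  have h2 := nsq_nonneg z
  have h3 : 0 ≤ 1 / (40 * (100 + nsq z)) := by positivity
  nlinarith

theorem nsq_two_step (z : Fin 3 → ℤ) (e e' : Fin 3 × Bool) :
    100 + nsq z ≤ 108 * (1 + nsq (z + stp e - stp e')) := by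
  obtain ⟨δ, hδ⟩ : ∃ δ, δ = stp e - stp e' := ⟨_, rfl⟩
  have hδn : nsq δ ≤ 4 := by
    rw [hδ, nsq_eq]
    obtain ⟨i, b⟩ := e
    obtain ⟨j, c⟩ := e'
    fin_cases i <;> fin_cases j <;> cases b <;> cases c <;> simp [stp] <;> norm_num
  have h1 : z + stp e - stp e' = z + δ := by rw [hδ]; abel
  rw [h1]
  rw [nsq_eq] at hδn ⊢
  rw [nsq_eq]
  simp only [Pi.add_apply, Int.cast_add]
  have h : ∀ a d : ℝ, a^2 ≤ 2 * (a+d)^2 + 2 * d^2 := fun a d => by nlinarith [sq_nonneg (a + 2*d)]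
  have h0 := h (z 0) (δ 0)
  have h1 := h (z 1) (δ 1)
  have h2 := h (z 2) (δ 2)
  nlinarith [sq_nonneg ((z 0 : ℝ) + δ 0), sq_nonneg ((z 1 : ℝ) + δ 1), sq_nonneg ((z 2 : ℝ) + δ 2)]

theorem pair_super (h : (Fin 3 → ℤ) → ℝ) (C : ℝ) (hC0 : 0 < C) (hC : ∀ z, h z ≤ C / (1 + nsq z))
    (β : ℝ) (hβ : β ^ 2 ≤ 1 / (4320 * C)) (z : Fin 3 → ℤ) :
    (1/36) * ∑ e : Fin 3 × Bool, ∑ e' : Fin 3 × Bool,
      Real.exp (β ^ 2 * h (z + stp e - stp e')) * phi (z + stp e - stp e') ≤ phi z := by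
  have hn := nsq_nonneg z
  obtain ⟨y, hy⟩ : ∃ y, y = 1 / (40 * (100 + nsq z)) := ⟨_, rfl⟩
  have hy1 : y ≤ 1 := by
    rw [hy, div_le_one (by positivity)]; linarith
  have h1 : ∀ e e' : Fin 3 × Bool, Real.exp (β ^ 2 * h (z + stp e - stp e')) * phi (z + stp e - stp e')
      ≤ Real.exp y * phi (z + stp e - stp e') := by
    intro e e'
    refine mul_le_mul_of_nonneg_right (Real.exp_le_exp.mpr ?_) (phi_pos _).le
    have h2 := nsq_two_step z e e'
    have h3 := nsq_nonneg (z + stp e - stp e')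
    have h4 := hC (z + stp e - stp e')
    have h5 : C / (1 + nsq (z + stp e - stp e')) ≤ 108 * C / (100 + nsq z) := by
      rw [div_le_div_iff₀ (by positivity) (by positivity)]
      nlinarith
    have h6 : β ^ 2 * h (z + stp e - stp e') ≤ β ^ 2 * (108 * C / (100 + nsq z)) :=
      mul_le_mul_of_nonneg_left (h4.trans h5) (sq_nonneg _)
    refine h6.trans ?_
    have h7 : β ^ 2 * (108 * C / (100 + nsq z)) ≤ 1 / (4320 * C) * (108 * C / (100 + nsq z)) :=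
      mul_le_mul_of_nonneg_right hβ (by positivity)
    refine h7.trans (le_of_eq ?_)
    rw [hy]
    field_simp
    norm_num
  have h2 : ∀ e : Fin 3 × Bool, ∑ e' : Fin 3 × Bool,
      Real.exp (β ^ 2 * h (z + stp e - stp e')) * phi (z + stp e - stp e') ≤
      Real.exp y * (6 * phi (z + stp e)) := by
    intro e
    refine (Finset.sum_le_sum fun e' _ => h1 e e').trans ?_
    rw [← Finset.mul_sum]
    refine mul_le_mul_of_nonneg_left ?_ (Real.exp_pos _).le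
    have := superharm' (z + stp e)
    linarith
  have h3 : ∑ e : Fin 3 × Bool, ∑ e' : Fin 3 × Bool,
      Real.exp (β ^ 2 * h (z + stp e - stp e')) * phi (z + stp e - stp e') ≤
      Real.exp y * (36 * (phi z * (1 - y))) := by
    refine (Finset.sum_le_sum fun e _ => h2 e).trans ?_
    rw [← Finset.mul_sum, ← Finset.mul_sum]
    refine mul_le_mul_of_nonneg_left ?_ (Real.exp_pos _).le
    have := superharm z
    rw [← hy] at this
    linarith
  have h4 : 1 - y ≤ Real.exp (-y) := by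
    have := Real.add_one_le_exp (-y); linarith
  have h5 : Real.exp y * (1 - y) ≤ 1 := by
    calc Real.exp y * (1 - y) ≤ Real.exp y * Real.exp (-y) :=
          mul_le_mul_of_nonneg_left h4 (Real.exp_pos _).le
      _ = 1 := by rw [← Real.exp_add]; simp
  have h6 := phi_pos z
  nlinarith

end Pool.Agent.helper98.DPZ
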