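import Mathlib
import Pool.Agent.helper98.DPZ.Sup

set_option autoImplicit false

open MeasureTheory ProbabilityTheory Filter

namespace Pool.Agent.helper98.DPZ

/-- space -/
abbrev V := Fin 3 → ℤ
/-- environments -/
abbrev Env := ℕ → V → ℝ

/-- time shift -/
def sh (u : Env) : Env := fun n => u (n + 1)

/-- transfer operator of the polymer -/
noncomputable def T (β : ℝ) : ℕ → Env → (V → ℝ) → V → ℝ
  | 0, _, f => f
  | N + 1, u, f => fun x => (1/6) * ∑ e : Fin 3 × Bool,
      Real.exp (β * u 0 (x + stp e) - β ^ 2 / 2) * T β N (sh u) f (x + stp e)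

/-- normalised partition function started at `x` -/
noncomputable def Z (β : ℝ) (N : ℕ) (u : Env) (x : V) : ℝ := T β N u (fun _ => 1) x

/-- position of a path -/
def pos {N : ℕ} (σ : Fin N → Fin 3 × Bool) (n : ℕ) : V :=
  ∑ k ∈ Finset.univ.filter (fun k : Fin N => k.val < n), stp (σ k)

theorem T_succ (β : ℝ) (N : ℕ) (u : Env) (f : V → ℝ) (x : V) :
    T β (N + 1) u f x = (1/6) * ∑ e : Fin 3 × Bool,
      Real.exp (β * u 0 (x + stp e) - β ^ 2 / 2) * T β N (sh u) f (x + stp e) := rfl

theorem T_zero (β : ℝ) (u : Env) (f : V → ℝ) (x : V) : T β 0 u f x = f x := rfl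

theorem T_mono (β : ℝ) (N : ℕ) : ∀ (u : Env) (f g : V → ℝ) (_ : ∀ y, f y ≤ g y) (x : V),
    T β N u f x ≤ T β N u g x := by
  induction N with
  | zero => intro u f g h x; exact h x
  | succ N ih =>
    intro u f g h x
    rw [T_succ, T_succ]
    refine mul_le_mul_of_nonneg_left ?_ (by norm_num)
    exact Finset.sum_le_sum fun e _ => mul_le_mul_of_nonneg_left (ih _ _ _ h _) (Real.exp_pos _).le

theorem T_lin (β : ℝ) (N : ℕ) : ∀ (u : Env) (f g : V → ℝ) (a b : ℝ) (x : V),
    T β N u (fun y => a * f y + b * g y) x = a * T β N u f x + b * T β N u g x := by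
  induction N with
  | zero => intro u f g a b x; rfl
  | succ N ih =>
    intro u f g a b x
    rw [T_succ, T_succ, T_succ]
    simp_rw [ih]
    rw [Finset.mul_sum, Finset.mul_sum, Finset.mul_sum, Finset.mul_sum, Finset.mul_sum,
      ← Finset.sum_add_distrib]
    refine Finset.sum_congr rfl fun e _ => by ring

theorem T_pos (β : ℝ) (N : ℕ) : ∀ (u : Env) (f : V → ℝ) (_ : ∀ y, 0 < f y) (x : V),
    0 < T β N u f x := by
  induction N with
  | zero => intro u f h x; exact h x
  | succ N ih =>
    intro u f h x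
    rw [T_succ]
    refine mul_pos (by norm_num) ?_
    exact Finset.sum_pos (fun e _ => mul_pos (Real.exp_pos _) (ih _ _ h _)) Finset.univ_nonempty

theorem Z_pos (β : ℝ) (N : ℕ) (u : Env) (x : V) : 0 < Z β N u x :=
  T_pos β N u _ (fun _ => one_pos) x

/-- concatenation of environments at time `N` -/
def cc (N : ℕ) (u u' : Env) : Env := fun n => if n < N then u n else u' (n - N)

theorem cc_zero (u u' : Env) : cc 0 u u' = u' := by
  ext n; simp [cc]

theorem sh_cc (N : ℕ) (u u' : Env) : sh (cc (N + 1) u u') = cc N (sh u) u' := by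
  ext n y
  simp only [sh, cc]
  by_cases h : n < N
  · simp [h]
  · simp [h]

theorem cc_succ_zero (N : ℕ) (u u' : Env) : cc (N + 1) u u' 0 = u 0 := by
  simp [cc]

theorem T_cc (β : ℝ) (N M : ℕ) : ∀ (u u' : Env) (f : V → ℝ) (x : V),
    T β (N + M) (cc N u u') f x = T β N u (T β M u' f) x := by
  induction N with
  | zero => intro u u' f x; simp [cc_zero, T_zero]
  | succ N ih =>
    intro u u' f x
    rw [show N + 1 + M = (N + M) + 1 by ring, T_succ, T_succ]
    simp_rw [sh_cc, cc_succ_zero, ih]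

theorem T_cc' (β : ℝ) (N : ℕ) (u u' : Env) (f : V → ℝ) (x : V) :
    T β N (cc N u u') f x = T β N u f x := by
  have h := T_cc β N 0 u u' f x
  have h2 : T β 0 u' f = f := funext fun y => T_zero β u' f y
  rw [h2] at h
  exact h

/-- `T` depends only on the first `N` slices -/
theorem T_congr (β : ℝ) (N : ℕ) (u v : Env) (huv : ∀ n < N, u n = v n) (f : V → ℝ) (x : V) :
    T β N u f x = T β N v f x := by
  have h : cc N u v = cc N v v := by
    ext n y
    simp only [cc]
    split_ifs with hn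
    · rw [huv n hn]
    · rfl
  rw [← T_cc' β N u v, h, T_cc']

theorem T_jensen (β : ℝ) (N : ℕ) (u : Env) (f : V → ℝ) (hf : ∀ y, 0 < f y) (x : V) :
    T β N u (fun y => Real.log (f y)) x ≤ Z β N u x * Real.log (T β N u f x / Z β N u x) := by
  have hZ := Z_pos β N u x
  have hT := T_pos β N u f hf x
  obtain ⟨c, hc⟩ : ∃ c, c = T β N u f x / Z β N u x := ⟨_, rfl⟩
  have hc0 : 0 < c := by rw [hc]; positivity
  have h1 : ∀ y, Real.log (f y) ≤ (Real.log c - 1) * 1 + (1 / c) * f y := by
    intro y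
    have h2 := Real.log_le_sub_one_of_pos (show 0 < f y / c from div_pos (hf y) hc0)
    rw [Real.log_div (hf y).ne' hc0.ne'] at h2
    have : 1 / c * f y = f y / c := by ring
    linarith
  have h3 := T_mono β N u _ _ h1 x
  rw [T_lin β N u (fun _ => 1) f (Real.log c - 1) (1 / c) x] at h3
  rw [← hc]
  have h4 : 1 / c * T β N u f x = Z β N u x := by
    rw [hc]; field_simp
  change _ ≤ (Real.log c - 1) * Z β N u x + 1 / c * T β N u f x at h3
  linarith

theorem T_log (β : ℝ) (N : ℕ) (u : Env) (f : V → ℝ) (hf : ∀ y, 0 < f y) (x : V) :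
    Real.log (Z β N u x) + T β N u (fun y => Real.log (f y)) x / Z β N u x ≤
      Real.log (T β N u f x) := by
  have hZ := Z_pos β N u x
  have hT := T_pos β N u f hf x
  have h := T_jensen β N u f hf x
  rw [Real.log_div hT.ne' hZ.ne'] at h
  have : T β N u (fun y => Real.log (f y)) x / Z β N u x ≤ Real.log (T β N u f x) - Real.log (Z β N u x) := by
    rw [div_le_iff₀ hZ]; linarith
  linarith

theorem T_const (β : ℝ) (N : ℕ) (u : Env) (c : ℝ) (x : V) :
    T β N u (fun _ => c) x = c * Z β N u x := by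
  have := T_lin β N u (fun _ => 1) (fun _ => 1) c 0 x
  simpa [Z] using this

/-- measurability -/
theorem T_measurable {A : Type*} [MeasurableSpace A] (β : ℝ) (N : ℕ) :
    ∀ (g : A → Env) (F : A → V → ℝ) (_ : ∀ n y, Measurable fun a => g a n y)
      (_ : ∀ y, Measurable fun a => F a y) (x : V),
    Measurable fun a => T β N (g a) (F a) x := by
  induction N with
  | zero => intro g F hg hF x; exact hF x
  | succ N ih =>
    intro g F hg hF x
    simp only [T_succ]
    refine Measurable.const_mul ?_ _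
    refine Finset.measurable_sum _ fun e _ => ?_
    refine Measurable.mul ?_ (ih _ _ (fun n y => hg (n+1) y) hF _)
    exact ((hg 0 _).const_mul β |>.sub_const _).exp

theorem Z_measurable {A : Type*} [MeasurableSpace A] (β : ℝ) (N : ℕ) (g : A → Env)
    (hg : ∀ n y, Measurable fun a => g a n y) (x : V) :
    Measurable fun a => Z β N (g a) x :=
  T_measurable β N g (fun _ _ => 1) hg (fun _ => measurable_const) x

theorem T_integrable {A : Type*} [MeasurableSpace A] (Q : Measure A) (β : ℝ) (N : ℕ) :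
    ∀ (u : Env) (F : A → V → ℝ) (_ : ∀ y, Integrable (fun a => F a y) Q) (x : V),
      Integrable (fun a => T β N u (F a) x) Q := by
  induction N with
  | zero => intro u F hF x; exact hF x
  | succ N ih =>
    intro u F hF x
    simp only [T_succ]
    refine Integrable.const_mul ?_ _
    exact integrable_finsetSum _ fun e _ => (ih _ _ hF _).const_mul _

theorem T_integral {A : Type*} [MeasurableSpace A] (Q : Measure A) (β : ℝ) (N : ℕ) :
    ∀ (u : Env) (F : A → V → ℝ) (_ : ∀ y, Integrable (fun a => F a y) Q) (x : V),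
      ∫ a, T β N u (F a) x ∂Q = T β N u (fun y => ∫ a, F a y ∂Q) x := by
  induction N with
  | zero => intro u F hF x; rfl
  | succ N ih =>
    intro u F hF x
    simp only [T_succ]
    rw [integral_const_mul, integral_finsetSum]
    · congr 1
      refine Finset.sum_congr rfl fun e _ => ?_
      rw [integral_const_mul, ih _ _ hF]
    · exact fun e _ => (T_integrable Q β N _ _ hF _).const_mul _

/-! path expansion -/

theorem pos_cons {N : ℕ} (e : Fin 3 × Bool) (σ : Fin N → Fin 3 × Bool) (n : ℕ) :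
    pos (Fin.cons e σ : Fin (N + 1) → Fin 3 × Bool) (n + 1) = stp e + pos σ n := by
  simp only [pos, Finset.sum_filter]
  rw [Fin.sum_univ_succ]
  simp

theorem pos_zero {N : ℕ} (σ : Fin N → Fin 3 × Bool) : pos σ 0 = 0 := by
  simp [pos]

theorem Z_eq (β : ℝ) (N : ℕ) : ∀ (u : Env) (x : V),
    Z β N u x = ((6:ℝ) ^ N)⁻¹ * ∑ σ : Fin N → Fin 3 × Bool,
      Real.exp (∑ n ∈ Finset.range N, (β * u n (x + pos σ (n + 1)) - β ^ 2 / 2)) := by
  induction N with
  | zero => intro u x; simp [Z, T_zero]
  | succ N ih =>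
    intro u x
    have h1 : Z β (N + 1) u x = (1/6) * ∑ e : Fin 3 × Bool,
      Real.exp (β * u 0 (x + stp e) - β ^ 2 / 2) * Z β N (sh u) (x + stp e) := rfl
    rw [h1]
    simp_rw [ih]
    have h0 : ∑ σ : Fin (N + 1) → Fin 3 × Bool,
        Real.exp (∑ n ∈ Finset.range (N + 1), (β * u n (x + pos σ (n + 1)) - β ^ 2 / 2)) =
        ∑ p : (Fin 3 × Bool) × (Fin N → Fin 3 × Bool),
        Real.exp (∑ n ∈ Finset.range (N + 1), (β * u n (x + pos
          ((Fin.consEquiv (fun _ : Fin (N + 1) => Fin 3 × Bool)) p) (n + 1)) - β ^ 2 / 2)) :=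
      (Equiv.sum_comp (Fin.consEquiv (fun _ : Fin (N + 1) => Fin 3 × Bool)) _).symm
    rw [Fintype.sum_prod_type (α₁ := Fin 3 × Bool) (α₂ := Fin N → Fin 3 × Bool)] at h0
    rw [h0, Finset.mul_sum, Finset.mul_sum]
    refine Finset.sum_congr rfl fun e _ => ?_
    rw [Finset.mul_sum, Finset.mul_sum, Finset.mul_sum, Finset.mul_sum]
    refine Finset.sum_congr rfl fun σ _ => ?_
    have h2 : (Fin.consEquiv (fun _ : Fin (N+1) => Fin 3 × Bool)) (e, σ) = (Fin.cons e σ : Fin (N + 1) → Fin 3 × Bool) := rfl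
    rw [h2, Finset.sum_range_succ', pos_cons, pos_zero, add_zero, add_comm (∑ n ∈ _, _), Real.exp_add]
    have h3 : ∑ n ∈ Finset.range N, (β * sh u n (x + stp e + pos σ (n + 1)) - β ^ 2 / 2) =
        ∑ k ∈ Finset.range N, (β * u (k + 1) (x + pos (Fin.cons e σ : Fin (N + 1) → Fin 3 × Bool) (k + 1 + 1)) - β ^ 2 / 2) := by
      refine Finset.sum_congr rfl fun k _ => ?_
      rw [pos_cons, sh, add_assoc]
    rw [h3]
    field_simp
    ring

end Pool.Agent.helper98.DPZ
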