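import Mathlib
import Pool.Agent.helper98.DPZ.Poly

set_option autoImplicit false

open MeasureTheory ProbabilityTheory Filter

namespace Pool.Agent.helper98.DPZ

section general

variable {E : Type*} [MeasurableSpace E] (μ : Measure E) [IsProbabilityMeasure μ]

/-- iid product measure -/
noncomputable abbrev PP : Measure (ℕ → E) := Measure.infinitePi (fun _ : ℕ => μ)

/-- general concatenation -/
def gcc (N : ℕ) (u u' : ℕ → E) : ℕ → E := fun n => if n < N then u n else u' (n - N)

/-- prepend -/
def cns (e : E) (u : ℕ → E) : ℕ → E := fun n => if n = 0 then e else u (n - 1)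

theorem measurable_gcc (N : ℕ) : Measurable (fun p : (ℕ → E) × (ℕ → E) => gcc N p.1 p.2) := by
  refine measurable_pi_lambda _ fun n => ?_
  unfold gcc
  by_cases h : n < N
  · simp only [h, if_true]; fun_prop
  · simp only [h, if_false]; fun_prop

theorem measurable_cns : Measurable (fun p : E × (ℕ → E) => cns p.1 p.2) := by
  refine measurable_pi_lambda _ fun n => ?_
  unfold cns
  by_cases h : n = 0
  · simp only [h, if_true]; fun_prop
  · simp only [h, if_false]; fun_prop

theorem mp_cns : MeasurePreserving (fun p : E × (ℕ → E) => cns p.1 p.2) (μ.prod (PP μ)) (PP μ) := by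
  classical
  refine ⟨measurable_cns, ?_⟩
  refine Measure.eq_infinitePi _ fun s t ht => ?_
  rw [Measure.map_apply measurable_cns (MeasurableSet.pi s.countable_toSet fun _ _ => ht _)]
  have h1 : (fun p : E × (ℕ → E) => cns p.1 p.2) ⁻¹' (Set.pi (s : Set ℕ) t) =
      (if 0 ∈ s then t 0 else Set.univ) ×ˢ
        (Set.pi (((s.erase 0).image (fun n => n - 1) : Finset ℕ) : Set ℕ) (fun n => t (n + 1))) := by
    ext ⟨e, u⟩
    simp only [Set.mem_preimage, Set.mem_pi, Set.mem_prod, Finset.coe_image, Finset.coe_erase]
    constructor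
    · intro h
      refine ⟨?_, ?_⟩
      · split_ifs with h0
        · simpa [cns] using h 0 h0
        · trivial
      · rintro m ⟨n, hn, rfl⟩
        have hn0 : n ≠ 0 := by
          intro h0; apply hn.2; simp [h0]
        have h2 := h n hn.1
        simp only [cns, hn0, if_false] at h2
        rw [Nat.sub_add_cancel (Nat.one_le_iff_ne_zero.mpr hn0)]
        exact h2
    · rintro ⟨h1, h2⟩ n hn
      by_cases h0 : n = 0
      · subst h0
        simp only [cns, if_true]
        have : (0:ℕ) ∈ s := hn
        simpa [this] using h1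
      · have h3 := h2 (n - 1) ⟨n, ⟨hn, by simpa using h0⟩, rfl⟩
        rw [Nat.sub_add_cancel (Nat.one_le_iff_ne_zero.mpr h0)] at h3
        simpa [cns, h0] using h3
  rw [h1, Measure.prod_prod, Measure.infinitePi_pi _ (fun i _ => ht _),
    Finset.prod_image]
  · by_cases h0 : 0 ∈ s
    · rw [if_pos h0, ← Finset.mul_prod_erase s _ h0]
      congr 1
      refine Finset.prod_congr rfl fun n hn => ?_
      rw [Nat.sub_add_cancel (Nat.one_le_iff_ne_zero.mpr (Finset.ne_of_mem_erase hn))]
    · rw [if_neg h0, measure_univ, one_mul, Finset.erase_eq_of_notMem h0]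
      refine Finset.prod_congr rfl fun n hn => ?_
      rw [Nat.sub_add_cancel]
      rcases n with _ | n
      · exact absurd hn h0
      · omega
  · intro a ha b hb hab
    have h1 := Finset.ne_of_mem_erase ha
    have h2 := Finset.ne_of_mem_erase hb
    simp only at hab
    omega

theorem mp_gcc (N : ℕ) : MeasurePreserving (fun p : (ℕ → E) × (ℕ → E) => gcc N p.1 p.2)
    ((PP μ).prod (PP μ)) (PP μ) := by
  classical
  refine ⟨measurable_gcc N, ?_⟩
  refine Measure.eq_infinitePi _ fun s t ht => ?_
  rw [Measure.map_apply (measurable_gcc N) (MeasurableSet.pi s.countable_toSet fun _ _ => ht _)]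
  have h1 : (fun p : (ℕ → E) × (ℕ → E) => gcc N p.1 p.2) ⁻¹' (Set.pi (s : Set ℕ) t) =
      (Set.pi ((s.filter (fun n => n < N) : Finset ℕ) : Set ℕ) t) ×ˢ
        (Set.pi (((s.filter (fun n => ¬ n < N)).image (fun n => n - N) : Finset ℕ) : Set ℕ)
          (fun n => t (n + N))) := by
    ext ⟨e, u⟩
    simp only [Set.mem_preimage, Set.mem_pi, Set.mem_prod, Finset.coe_image, Finset.coe_filter]
    constructor
    · intro h
      refine ⟨?_, ?_⟩
      · rintro n ⟨hn, hnN⟩
        have := h n hn
        simpa [gcc, hnN] using this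
      · rintro m ⟨n, ⟨hn, hnN⟩, rfl⟩
        have h2 := h n hn
        simp only [gcc, hnN, if_false] at h2
        rw [Nat.sub_add_cancel (by omega)]
        exact h2
    · rintro ⟨h1, h2⟩ n hn
      by_cases h0 : n < N
      · simpa [gcc, h0] using h1 n ⟨hn, h0⟩
      · have h3 := h2 (n - N) ⟨n, ⟨hn, h0⟩, rfl⟩
        rw [Nat.sub_add_cancel (by omega)] at h3
        simpa [gcc, h0] using h3
  rw [h1, Measure.prod_prod, Measure.infinitePi_pi _ (fun i _ => ht _),
    Measure.infinitePi_pi _ (fun i _ => ht _), Finset.prod_image]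
  · rw [← Finset.prod_filter_mul_prod_filter_not s (fun n => n < N)]
    congr 1
    refine Finset.prod_congr rfl fun n hn => ?_
    rw [Nat.sub_add_cancel]
    have := (Finset.mem_filter.mp hn).2
    omega
  · intro a ha b hb hab
    have h1 := (Finset.mem_filter.mp ha).2
    have h2 := (Finset.mem_filter.mp hb).2
    simp only at hab
    omega

theorem measurable_upd (n : ℕ) : Measurable (fun p : (ℕ → E) × E => Function.update p.1 n p.2) := by
  refine measurable_pi_lambda _ fun m => ?_
  by_cases h : m = n
  · subst h; simp only [Function.update_self]; fun_prop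
  · simp only [Function.update_of_ne h]; fun_prop

theorem mp_upd (n : ℕ) : MeasurePreserving (fun p : (ℕ → E) × E => Function.update p.1 n p.2)
    ((PP μ).prod μ) (PP μ) := by
  classical
  refine ⟨measurable_upd n, ?_⟩
  refine Measure.eq_infinitePi _ fun s t ht => ?_
  rw [Measure.map_apply (measurable_upd n) (MeasurableSet.pi s.countable_toSet fun _ _ => ht _)]
  have h1 : (fun p : (ℕ → E) × E => Function.update p.1 n p.2) ⁻¹' (Set.pi (s : Set ℕ) t) =
      (Set.pi ((s.erase n : Finset ℕ) : Set ℕ) t) ×ˢ (if n ∈ s then t n else Set.univ) := by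
    ext ⟨u, e⟩
    simp only [Set.mem_preimage, Set.mem_pi, Set.mem_prod, Finset.coe_erase]
    constructor
    · intro h
      refine ⟨?_, ?_⟩
      · rintro m ⟨hm, hmn⟩
        have hmn' : m ≠ n := by simpa using hmn
        have := h m hm
        rwa [Function.update_of_ne hmn'] at this
      · split_ifs with h0
        · simpa using h n h0
        · trivial
    · rintro ⟨h1, h2⟩ m hm
      by_cases h0 : m = n
      · subst h0
        have : m ∈ s := hm
        simpa [this] using h2
      · rw [Function.update_of_ne h0]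
        exact h1 m ⟨hm, by simpa using h0⟩
  rw [h1, Measure.prod_prod, Measure.infinitePi_pi _ (fun i _ => ht _)]
  by_cases h0 : n ∈ s
  · rw [if_pos h0, Finset.prod_erase_mul s _ h0]
  · rw [if_neg h0, measure_univ, mul_one, Finset.erase_eq_of_notMem h0]

theorem mp_sh : MeasurePreserving (fun (u : ℕ → E) (n : ℕ) => u (n + 1)) (PP μ) (PP μ) := by
  refine ⟨by fun_prop, ?_⟩
  exact Measure.map_infinitePi_infinitePi_of_inj (P := fun _ : ℕ => μ) (f := fun n : ℕ => n + 1)
    (fun a b h => by simpa using h)

end general

end Pool.Agent.helper98.DPZ
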