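import Mathlib
import Pool.Agent.helper98.DPZ.Meas

set_option autoImplicit false

open MeasureTheory ProbabilityTheory Filter

namespace Pool.Agent.helper98.DPZ

theorem integrable_of_sq {A : Type*} [MeasurableSpace A] {Q : Measure A} [IsProbabilityMeasure Q]
    {F : A → ℝ} (hm : AEStronglyMeasurable F Q) (h2 : Integrable (fun a => F a ^ 2) Q) :
    Integrable F Q := by
  have : MemLp F 2 Q := (memLp_two_iff_integrable_sq hm).mpr h2
  exact this.integrable (by norm_num)

theorem int_sq_sub {A : Type*} [MeasurableSpace A] {Q : Measure A} [IsProbabilityMeasure Q]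
    {F : A → ℝ} (h1 : Integrable F Q) (h2 : Integrable (fun a => F a ^ 2) Q) (c : ℝ) :
    ∫ a, (F a - c) ^ 2 ∂Q = ∫ a, F a ^ 2 ∂Q - 2 * c * ∫ a, F a ∂Q + c ^ 2 := by
  have e1 : ∫ a, (F a ^ 2 - 2 * c * F a + c ^ 2) ∂Q =
      ∫ a, (F a ^ 2 - 2 * c * F a) ∂Q + ∫ _, c ^ 2 ∂Q :=
    integral_add (h2.sub (h1.const_mul (2 * c))) (integrable_const _)
  have e2 : ∫ a, (F a ^ 2 - 2 * c * F a) ∂Q = ∫ a, F a ^ 2 ∂Q - ∫ a, 2 * c * F a ∂Q :=
    integral_sub h2 (h1.const_mul (2 * c))
  have e3 : ∫ a, (F a - c) ^ 2 ∂Q = ∫ a, (F a ^ 2 - 2 * c * F a + c ^ 2) ∂Q :=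
    integral_congr_ae (Eventually.of_forall fun a => by ring)
  rw [e3, e1, e2, integral_const_mul]
  simp

theorem sq_integral_le {A : Type*} [MeasurableSpace A] {Q : Measure A} [IsProbabilityMeasure Q]
    {F : A → ℝ} (hm : AEStronglyMeasurable F Q) (h2 : Integrable (fun a => F a ^ 2) Q) :
    (∫ a, F a ∂Q) ^ 2 ≤ ∫ a, F a ^ 2 ∂Q := by
  have h1 := integrable_of_sq hm h2
  obtain ⟨c, hc⟩ : ∃ c, c = ∫ a, F a ∂Q := ⟨_, rfl⟩
  have h3 : 0 ≤ ∫ a, (F a - c) ^ 2 ∂Q := integral_nonneg fun a => sq_nonneg _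
  have h4 : ∫ a, (F a - c) ^ 2 ∂Q = ∫ a, F a ^ 2 ∂Q - 2 * c * ∫ a, F a ∂Q + c ^ 2 := by
    exact int_sq_sub h1 h2 c
  rw [← hc] at h4 ⊢
  nlinarith

theorem var_le_const {A : Type*} [MeasurableSpace A] {Q : Measure A} [IsProbabilityMeasure Q]
    {F : A → ℝ} (hm : AEStronglyMeasurable F Q) (h2 : Integrable (fun a => F a ^ 2) Q) (c : ℝ) :
    ∫ a, F a ^ 2 ∂Q - (∫ a, F a ∂Q) ^ 2 ≤ ∫ a, (F a - c) ^ 2 ∂Q := by
  have h1 := integrable_of_sq hm h2
  have h4 : ∫ a, (F a - c) ^ 2 ∂Q = ∫ a, F a ^ 2 ∂Q - 2 * c * ∫ a, F a ∂Q + c ^ 2 := by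
    exact int_sq_sub h1 h2 c
  rw [h4]
  nlinarith [sq_nonneg (∫ a, F a ∂Q - c)]

theorem sq_sub_integrable {A : Type*} [MeasurableSpace A] {Q : Measure A} [IsProbabilityMeasure Q]
    {F G : A → ℝ} (hF : AEStronglyMeasurable F Q) (hG : AEStronglyMeasurable G Q)
    (hF2 : Integrable (fun a => F a ^ 2) Q) (hG2 : Integrable (fun a => G a ^ 2) Q) :
    Integrable (fun a => (F a - G a) ^ 2) Q := by
  have h1 : MemLp F 2 Q := (memLp_two_iff_integrable_sq hF).mpr hF2
  have h2 : MemLp G 2 Q := (memLp_two_iff_integrable_sq hG).mpr hG2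
  exact (h1.sub h2).integrable_sq

section general

variable {E : Type*} [MeasurableSpace E] (μ : Measure E) [IsProbabilityMeasure μ]

theorem efron_stein (N : ℕ) : ∀ (F : (ℕ → E) → ℝ) (G : ℕ → (ℕ → E) → ℝ),
    Measurable F → (∀ i, Measurable (G i)) → Integrable (fun u => F u ^ 2) (PP μ) →
    (∀ i, Integrable (fun u => G i u ^ 2) (PP μ)) →
    (∀ u v, (∀ n < N, u n = v n) → F u = F v) →
    (∀ i u e, G i (Function.update u i e) = G i u) →
    ∫ u, F u ^ 2 ∂(PP μ) - (∫ u, F u ∂(PP μ)) ^ 2 ≤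
      ∑ i ∈ Finset.range N, ∫ u, (F u - G i u) ^ 2 ∂(PP μ) := by
  induction N with
  | zero =>
    intro F G hF hG hF2 hG2 hdep hGdep
    have : Nonempty E := by
      by_contra hne
      rw [not_nonempty_iff] at hne
      have := measure_univ (μ := μ)
      rw [Set.univ_eq_empty_iff.mpr hne, measure_empty] at this
      exact zero_ne_one this
    obtain ⟨e0⟩ := this
    have hc : F = fun _ => F (fun _ => e0) := by
      ext u; exact hdep u _ (by simp)
    rw [hc]
    simp
  | succ N ih =>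
    intro F G hF hG hF2 hG2 hdep hGdep
    have hmp := mp_cns μ
    -- pull back to the product
    have hFc2 : Integrable (fun p : E × (ℕ → E) => F (cns p.1 p.2) ^ 2) (μ.prod (PP μ)) :=
      hmp.integrable_comp_of_integrable hF2
    have hGc2 : ∀ i, Integrable (fun p : E × (ℕ → E) => G i (cns p.1 p.2) ^ 2) (μ.prod (PP μ)) :=
      fun i => hmp.integrable_comp_of_integrable (hG2 i)
    have hFcm : Measurable (fun p : E × (ℕ → E) => F (cns p.1 p.2)) := hF.comp measurable_cns
    have hGcm : ∀ i, Measurable (fun p : E × (ℕ → E) => G i (cns p.1 p.2)) :=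
      fun i => (hG i).comp measurable_cns
    have hFc1 : Integrable (fun p : E × (ℕ → E) => F (cns p.1 p.2)) (μ.prod (PP μ)) :=
      integrable_of_sq hFcm.aestronglyMeasurable hFc2
    have hdiff : ∀ i, Integrable (fun p : E × (ℕ → E) => (F (cns p.1 p.2) - G i (cns p.1 p.2)) ^ 2)
        (μ.prod (PP μ)) := fun i =>
      sq_sub_integrable hFcm.aestronglyMeasurable (hGcm i).aestronglyMeasurable hFc2 (hGc2 i)
    have hI : ∀ H : (ℕ → E) → ℝ, Measurable H →
        ∫ u, H u ∂(PP μ) = ∫ p, H (cns p.1 p.2) ∂(μ.prod (PP μ)) := by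
      intro H hH
      have h := integral_map (μ := μ.prod (PP μ)) hmp.measurable.aemeasurable
        (f := H) hH.aestronglyMeasurable
      rw [hmp.map_eq] at h
      exact h
    obtain ⟨f, hf⟩ : ∃ f : E → ℝ, f = fun e => ∫ u, F (cns e u) ∂(PP μ) := ⟨_, rfl⟩
    have hfm : Measurable f := by
      rw [hf]
      exact (hFcm.stronglyMeasurable.integral_prod_right').measurable
    -- step A
    have hA : ∀ᵐ e ∂μ, ∫ u, F (cns e u) ^ 2 ∂(PP μ) - f e ^ 2 ≤
        ∑ i ∈ Finset.range N, ∫ u, (F (cns e u) - G (i + 1) (cns e u)) ^ 2 ∂(PP μ) := by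
      have h1 := hFc2.prod_right_ae
      have h2 : ∀ᵐ e ∂μ, ∀ i, Integrable (fun u => G (i + 1) (cns e u) ^ 2) (PP μ) := by
        rw [ae_all_iff]
        exact fun i => (hGc2 (i + 1)).prod_right_ae
      filter_upwards [h1, h2] with e he1 he2
      rw [hf]
      refine ih (fun u => F (cns e u)) (fun i u => G (i + 1) (cns e u)) ?_ ?_ he1 he2 ?_ ?_
      · exact hFcm.comp (measurable_const.prodMk measurable_id)
      · exact fun i => (hGcm (i + 1)).comp (measurable_const.prodMk measurable_id)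
      · intro u v huv
        refine hdep _ _ fun n hn => ?_
        unfold cns
        split_ifs with h0
        · rfl
        · exact huv _ (by omega)
      · intro i u e'
        rw [← hGdep (i + 1) (cns e u) e']
        congr 1
        ext n
        simp only [cns]
        by_cases hn : n = i + 1
        · subst hn; simp [Function.update_self]
        · rw [Function.update_of_ne hn]
          by_cases h0 : n = 0
          · simp [h0, cns]
          · simp only [h0, if_false, cns]
            rw [Function.update_of_ne (by omega)]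
    have hsec : ∀ᵐ e ∂μ, f e ^ 2 ≤ ∫ u, F (cns e u) ^ 2 ∂(PP μ) := by
      filter_upwards [hFc2.prod_right_ae] with e he
      rw [hf]
      exact sq_integral_le (hFcm.comp (measurable_const.prodMk measurable_id)).aestronglyMeasurable he
    have hFF : Integrable (fun e => ∫ u, F (cns e u) ^ 2 ∂(PP μ)) μ := hFc2.integral_prod_left
    have hf2 : Integrable (fun e => f e ^ 2) μ := by
      refine hFF.mono' (hfm.pow_const 2).aestronglyMeasurable ?_
      filter_upwards [hsec] with e he
      rw [Real.norm_of_nonneg (sq_nonneg _)]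
      exact he
    have hA' : ∫ u, F u ^ 2 ∂(PP μ) - ∫ e, f e ^ 2 ∂μ ≤
        ∑ i ∈ Finset.range N, ∫ u, (F u - G (i + 1) u) ^ 2 ∂(PP μ) := by
      have h1 : ∫ u, F u ^ 2 ∂(PP μ) = ∫ e, ∫ u, F (cns e u) ^ 2 ∂(PP μ) ∂μ := by
        rw [hI _ (hF.pow_const 2), integral_prod _ hFc2]
      have h2 : ∀ i, ∫ u, (F u - G (i + 1) u) ^ 2 ∂(PP μ) =
          ∫ e, ∫ u, (F (cns e u) - G (i + 1) (cns e u)) ^ 2 ∂(PP μ) ∂μ := by
        intro i
        rw [hI (fun u => (F u - G (i + 1) u) ^ 2) ((hF.sub (hG (i + 1))).pow_const 2),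
          integral_prod _ (hdiff (i + 1))]
      rw [h1]
      simp_rw [h2]
      rw [← integral_sub hFF hf2, ← integral_finsetSum _ fun i _ => (hdiff (i + 1)).integral_prod_left]
      exact integral_mono_ae (hFF.sub hf2)
        (integrable_finsetSum _ fun i _ => (hdiff (i + 1)).integral_prod_left) hA
    -- step B
    have hB : ∫ e, f e ^ 2 ∂μ - (∫ e, f e ∂μ) ^ 2 ≤ ∫ u, (F u - G 0 u) ^ 2 ∂(PP μ) := by
      obtain ⟨e0⟩ : Nonempty E := by
        by_contra hne
        rw [not_nonempty_iff] at hne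
        have := measure_univ (μ := μ)
        rw [Set.univ_eq_empty_iff.mpr hne, measure_empty] at this
        exact zero_ne_one this
      have hγ : ∀ e u, G 0 (cns e u) = G 0 (cns e0 u) := by
        intro e u
        rw [← hGdep 0 (cns e u) e0]
        congr 1
        ext n
        simp only [cns]
        by_cases hn : n = 0
        · subst hn; simp
        · rw [Function.update_of_ne hn]; simp [hn, cns]
      obtain ⟨c, hc⟩ : ∃ c, c = ∫ u, G 0 (cns e0 u) ∂(PP μ) := ⟨_, rfl⟩
      refine (var_le_const hfm.aestronglyMeasurable hf2 c).trans ?_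
      rw [hI (fun u => (F u - G 0 u) ^ 2) ((hF.sub (hG 0)).pow_const 2), integral_prod _ (hdiff 0)]
      have hfc : Integrable (fun e => (f e - c) ^ 2) μ :=
        sq_sub_integrable hfm.aestronglyMeasurable aestronglyMeasurable_const hf2 (integrable_const _)
      refine integral_mono_ae hfc (hdiff 0).integral_prod_left ?_
      filter_upwards [hFc2.prod_right_ae, (hGc2 0).prod_right_ae, (hdiff 0).prod_right_ae] with e h1 h2 h3
      have hm1 : Measurable fun u => F (cns e u) := hFcm.comp (measurable_const.prodMk measurable_id)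
      have hm2 : Measurable fun u => G 0 (cns e u) := (hGcm 0).comp (measurable_const.prodMk measurable_id)
      have i1 := integrable_of_sq hm1.aestronglyMeasurable h1
      have i2 := integrable_of_sq hm2.aestronglyMeasurable h2
      have h4 : f e - c = ∫ u, (F (cns e u) - G 0 (cns e u)) ∂(PP μ) := by
        rw [integral_sub i1 i2, hf, hc]
        congr 1
        refine integral_congr_ae (Eventually.of_forall fun u => ?_)
        exact (hγ e u).symm
      rw [h4]
      exact sq_integral_le (hm1.sub hm2).aestronglyMeasurable h3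
    have hfF : ∫ e, f e ∂μ = ∫ u, F u ∂(PP μ) := by
      rw [hI _ hF, integral_prod _ hFc1, hf]
    rw [hfF] at hB
    rw [Finset.sum_range_succ']
    linarith

end general

end Pool.Agent.helper98.DPZ
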