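import Mathlib

set_option autoImplicit false

open MeasureTheory ProbabilityTheory Filter
open scoped InnerProductSpace

namespace Pool.Agent.helper98.DPZ

/-- Sum of independent centred real Gaussians. -/
theorem sum_gauss {Ω ι : Type*} [MeasurableSpace Ω] {P : Measure Ω} [IsProbabilityMeasure P]
    (X : ι → Ω → ℝ) (hm : ∀ i, Measurable (X i)) (hI : iIndepFun X P) (v : ι → NNReal)
    (hX : ∀ i, P.map (X i) = gaussianReal 0 (v i)) (s : Finset ι) :
    P.map (fun w => ∑ i ∈ s, X i w) = gaussianReal 0 (∑ i ∈ s, v i) := by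
  classical
  induction s using Finset.induction_on with
  | empty =>
    simp only [Finset.sum_empty, gaussianReal_zero_var]
    exact Measure.map_const P (0:ℝ) |>.trans (by simp)
  | insert a s ha ih =>
    have h1 : IndepFun (∑ i ∈ s, X i) (X a) P := hI.indepFun_finsetSum_of_notMem hm ha
    have h2 := gaussianReal_add_gaussianReal_of_indepFun (P := P) h1
      (m₁ := 0) (m₂ := 0) (v₁ := ∑ i ∈ s, v i) (v₂ := v a)
      (by rw [← ih]; congr 1; ext w; simp) (hX a)
    rw [Finset.sum_insert ha, add_comm, ← add_zero (0:ℝ), ← h2]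
    congr 1
    ext w
    simp [Finset.sum_insert ha, add_comm]


theorem exists_vectors {X : Type} (k : X → X → ℝ) (hs : ∀ x y, k x y = k y x)
    (hp : ∀ (s : Finset X) (a : X → ℝ), 0 ≤ ∑ x ∈ s, ∑ y ∈ s, a x * a y * k x y) :
    ∃ (H : Type) (_ : NormedAddCommGroup H) (_ : InnerProductSpace ℝ H) (v : X → H),
      ∀ x y, ⟪v x, v y⟫_ℝ = k x y := by
  classical
  let K : Matrix X X (ℝ →L[ℝ] ℝ) := fun x y => (k x y) • ContinuousLinearMap.id ℝ ℝ
  have hK : K.PosSemidef := by
    have h1 : K.IsHermitian := by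
      ext x y
      rw [Matrix.conjTranspose_apply]
      change (star (k y x • ContinuousLinearMap.id ℝ ℝ) : ℝ →L[ℝ] ℝ) 1 = (k x y • ContinuousLinearMap.id ℝ ℝ) 1
      rw [show (ContinuousLinearMap.id ℝ ℝ) = 1 from rfl]
      simp [hs x y]
    have h2 : ∀ (vv : X →₀ ℝ),
      0 ≤ RCLike.re (vv.sum fun x w ↦ vv.sum fun x' w' ↦ ⟪K x' x w, w'⟫_ℝ) := by
      intro vv
      have := hp vv.support vv
      simp only [Finsupp.sum]
      simp only [K]
      convert this using 1
      simp only [RCLike.re_to_real]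
      refine Finset.sum_congr rfl fun x _ => Finset.sum_congr rfl fun y _ => ?_
      simp [hs y x]
      ring
    have h3 := (RKHS.posSemidef_tfae (K := K)).out 0 2
    exact h3.mpr ⟨h1, h2⟩
  have : Fact K.PosSemidef := ⟨hK⟩
  refine ⟨RKHS.OfKernel K, inferInstance, inferInstance, fun x => RKHS.kerFun (RKHS.OfKernel K) x 1, ?_⟩
  intro x y
  have := RKHS.kernel_inner (H := RKHS.OfKernel K) y x (1:ℝ) (1:ℝ)
  rw [RKHS.OfKernel.kernel_ofKernel] at this
  rw [← this]
  simp [K, hs y x]

/-- Cholesky factor of a Gram matrix indexed by `ℕ`. -/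
theorem exists_cholesky {H : Type} [NormedAddCommGroup H] [InnerProductSpace ℝ H] (v : ℕ → H) :
    ∃ c : ℕ → ℕ → ℝ, (∀ n j, n < j → c n j = 0) ∧
      ∀ n m, ⟪v n, v m⟫_ℝ = ∑ j ∈ Finset.range (n + 1), c n j * c m j := by
  classical
  let g := InnerProductSpace.gramSchmidt ℝ v
  have hg : ∀ i j, i ≠ j → ⟪g i, g j⟫_ℝ = 0 := fun i j hij => InnerProductSpace.gramSchmidt_orthogonal ℝ v hij
  have htri : ∀ i j, i < j → ⟪g j, v i⟫_ℝ = 0 := fun i j hij => InnerProductSpace.gramSchmidt_inv_triangular ℝ v hij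
  have hdef : ∀ n, v n = ∑ i ∈ Finset.range (n + 1), (⟪g i, v n⟫_ℝ / ‖g i‖ ^ 2) • g i := by
    intro n
    have h := InnerProductSpace.gramSchmidt_def'' ℝ v n
    rw [Finset.sum_range_succ]
    have hd : ⟪g n, v n⟫_ℝ = ‖g n‖ ^ 2 := by
      conv_lhs => rw [h]
      rw [inner_add_right, inner_sum]
      rw [Finset.sum_eq_zero, add_zero, real_inner_self_eq_norm_sq]
      intro i hi
      rw [inner_smul_right]
      have : i < n := by simpa using hi
      rw [show ⟪g n, InnerProductSpace.gramSchmidt ℝ v i⟫_ℝ = 0 from hg n i (by omega)]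
      simp
    have h3 : (⟪g n, v n⟫_ℝ / ‖g n‖ ^ 2) • g n = g n := by
      rw [hd]
      by_cases h0 : g n = 0
      · simp [h0]
      · have : ‖g n‖ ^ 2 ≠ 0 := by simpa using h0
        rw [div_self this, one_smul]
    rw [h3]
    conv_lhs => rw [h]
    rw [add_comm]
    congr 1
    · refine Finset.sum_congr ?_ fun i _ => rfl
      ext i; simp
  refine ⟨fun n j => ⟪g j, v n⟫_ℝ / ‖g j‖, ?_, ?_⟩
  · intro n j hnj
    simp [htri n j hnj]
  · intro n m
    conv_lhs => rw [hdef n]
    rw [sum_inner]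
    refine Finset.sum_congr rfl fun i _ => ?_
    rw [real_inner_smul_left]
    by_cases h0 : ‖g i‖ = 0
    · simp [h0]
    · field_simp


/-- Finite linear combinations of iid standard Gaussians. -/
theorem map_lin (t : Finset ℕ) (b : ℕ → ℝ) :
    (Measure.infinitePi (fun _ : ℕ => gaussianReal 0 1)).map (fun g : ℕ → ℝ => ∑ j ∈ t, b j * g j) =
      gaussianReal 0 (Real.toNNReal (∑ j ∈ t, (b j) ^ 2)) := by
  have hI : iIndepFun (fun (j : ℕ) (g : ℕ → ℝ) => b j * g j)
      (Measure.infinitePi (fun _ : ℕ => gaussianReal 0 1)) :=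
    iIndepFun_infinitePi (P := fun _ : ℕ => gaussianReal 0 1) (X := fun j (r : ℝ) => b j * r)
      (fun j => by fun_prop)
  have hX : ∀ j, (Measure.infinitePi (fun _ : ℕ => gaussianReal 0 1)).map
      (fun g : ℕ → ℝ => b j * g j) = gaussianReal 0 (Real.toNNReal ((b j) ^ 2)) := by
    intro j
    have h1 := Measure.infinitePi_map_eval (fun _ : ℕ => gaussianReal 0 1) j
    have h2 := gaussianReal_map_const_mul (μ := 0) (v := 1) (b j)
    rw [← h1, Measure.map_map (by fun_prop) (by fun_prop)] at h2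
    change Measure.map (fun g : ℕ → ℝ => b j * g j) _ = _ at h2
    rw [h2]
    congr 1
    · simp
    · ext; simp [Real.toNNReal_of_nonneg, sq_nonneg]
  rw [sum_gauss (fun (j : ℕ) (g : ℕ → ℝ) => b j * g j) (fun j => by fun_prop) hI _ hX t,
    Real.toNNReal_sum_of_nonneg (fun j _ => sq_nonneg _)]

/-- Existence of centred Gaussian fields with a given positive semidefinite kernel on a countable
set. -/
theorem exists_field {ι : Type} [Countable ι] (k : ι → ι → ℝ) (hs : ∀ x y, k x y = k y x)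
    (hp : ∀ (s : Finset ι) (a : ι → ℝ), 0 ≤ ∑ x ∈ s, ∑ y ∈ s, a x * a y * k x y) :
    ∃ μ : Measure (ι → ℝ), IsProbabilityMeasure μ ∧ ∀ (s : Finset ι) (a : ι → ℝ),
      μ.map (fun e => ∑ x ∈ s, a x * e x) =
        gaussianReal 0 (Real.toNNReal (∑ x ∈ s, ∑ y ∈ s, a x * a y * k x y)) := by
  classical
  obtain ⟨H, _, _, v, hv⟩ := exists_vectors k hs hp
  obtain ⟨enc, henc⟩ := exists_injective_nat ι
  let v' : ℕ → H := fun n => if hn : ∃ x, enc x = n then v hn.choose else 0
  have hv' : ∀ x, v' (enc x) = v x := by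
    intro x
    have hn : ∃ y, enc y = enc x := ⟨x, rfl⟩
    simp only [v', dif_pos hn]
    congr 1
    exact henc hn.choose_spec
  obtain ⟨c, hc0, hc⟩ := exists_cholesky v'
  let F : (ℕ → ℝ) → (ι → ℝ) := fun g x => ∑ j ∈ Finset.range (enc x + 1), c (enc x) j * g j
  have hF : Measurable F := by
    refine measurable_pi_lambda _ fun x => ?_
    refine Finset.measurable_sum _ fun j _ => ?_
    fun_prop
  refine ⟨(Measure.infinitePi (fun _ : ℕ => gaussianReal 0 1)).map F,
    Measure.isProbabilityMeasure_map hF.aemeasurable, ?_⟩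
  intro s a
  rw [Measure.map_map (by fun_prop) hF]
  -- a common upper bound for the codes
  obtain ⟨M, hM⟩ : ∃ M, ∀ x ∈ s, enc x + 1 ≤ M :=
    ⟨s.sup (fun x => enc x + 1), fun x hx => Finset.le_sup (f := fun x => enc x + 1) hx⟩
  have hext : ∀ x ∈ s, ∀ g : ℕ → ℝ, ∑ j ∈ Finset.range (enc x + 1), c (enc x) j * g j =
      ∑ j ∈ Finset.range M, c (enc x) j * g j := by
    intro x hx g
    refine Finset.sum_subset (Finset.range_mono (hM x hx)) fun j _ hj => ?_
    rw [hc0 (enc x) j (by simpa using hj), zero_mul]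
  have h1 : ((fun e : ι → ℝ => ∑ x ∈ s, a x * e x) ∘ F) =
      fun g : ℕ → ℝ => ∑ j ∈ Finset.range M, (∑ x ∈ s, a x * c (enc x) j) * g j := by
    ext g
    simp only [Function.comp_apply, F]
    rw [Finset.sum_congr rfl fun x hx => by rw [hext x hx g]]
    simp_rw [Finset.mul_sum, Finset.sum_mul]
    rw [Finset.sum_comm]
    refine Finset.sum_congr rfl fun j _ => Finset.sum_congr rfl fun x _ => by ring
  rw [h1, map_lin]
  congr 2
  have h2 : ∀ x ∈ s, ∀ y ∈ s, k x y = ∑ j ∈ Finset.range M, c (enc x) j * c (enc y) j := by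
    intro x hx y hy
    rw [← hv x y, ← hv' x, ← hv' y, hc]
    exact hext x hx _
  symm
  calc ∑ x ∈ s, ∑ y ∈ s, a x * a y * k x y
      = ∑ x ∈ s, ∑ y ∈ s, ∑ j ∈ Finset.range M, (a x * c (enc x) j) * (a y * c (enc y) j) := by
        refine Finset.sum_congr rfl fun x hx => Finset.sum_congr rfl fun y hy => ?_
        rw [h2 x hx y hy, Finset.mul_sum]
        refine Finset.sum_congr rfl fun j _ => by ring
    _ = ∑ j ∈ Finset.range M, (∑ x ∈ s, a x * c (enc x) j) ^ 2 := by
        rw [Finset.sum_congr rfl fun x hx => Finset.sum_comm]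
        rw [Finset.sum_comm]
        refine Finset.sum_congr rfl fun j _ => ?_
        rw [sq, Finset.sum_mul_sum]

end Pool.Agent.helper98.DPZ
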