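import Mathlib
import Pool.Agent.helper98.DPZ.ES
import Pool.Agent.helper98.DPZ.Gauss

set_option autoImplicit false

open MeasureTheory ProbabilityTheory Filter

namespace Pool.Agent.helper98.DPZ

/-- exponential moments of a centred Gaussian variable -/
theorem exp_gauss {A : Type*} [MeasurableSpace A] {Q : Measure A} [IsProbabilityMeasure Q]
    {X : A → ℝ} (hXm : Measurable X) {v : NNReal} (hX : Q.map X = gaussianReal 0 v) :
    Integrable (fun a => Real.exp (X a)) Q ∧ ∫ a, Real.exp (X a) ∂Q = Real.exp (v / 2) := by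
  constructor
  · have h1 : Integrable (fun r : ℝ => Real.exp (1 * r)) (gaussianReal 0 v) :=
      integrable_exp_mul_gaussianReal 1
    rw [← hX] at h1
    have h2 := (integrable_map_measure (by fun_prop) hXm.aemeasurable).mp h1
    simpa [Function.comp_def] using h2
  · have h1 := mgf_gaussianReal hX 1
    simpa [mgf] using h1

/-- The slice law hypothesis. -/
structure IsSlice (h : V → ℝ) (μ : Measure (V → ℝ)) : Prop where
  law : ∀ (s : Finset V) (a : V → ℝ), μ.map (fun e => ∑ x ∈ s, a x * e x) =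
    gaussianReal 0 (Real.toNNReal (∑ x ∈ s, ∑ y ∈ s, a x * a y * h (x - y)))

set_option linter.unusedSectionVars false

variable {h : V → ℝ} {μ : Measure (V → ℝ)} [IsProbabilityMeasure μ]

theorem two_point (hμ : IsSlice h μ) (hs : ∀ x, h (-x) = h x) (h0 : h 0 = 1) (b c : ℝ) (x y : V) :
    μ.map (fun e => b * e x + c * e y) =
      gaussianReal 0 (Real.toNNReal (b ^ 2 + c ^ 2 + 2 * b * c * h (x - y))) := by
  classical
  have h1 := hμ.law {x, y} (fun z => (if z = x then b else 0) + (if z = y then c else 0))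
  have h2 : ∀ e : V → ℝ, ∑ z ∈ ({x, y} : Finset V),
      ((if z = x then b else 0) + (if z = y then c else 0)) * e z = b * e x + c * e y := by
    intro e
    simp only [add_mul, Finset.sum_add_distrib, ite_mul, zero_mul]
    rw [Finset.sum_ite_eq', Finset.sum_ite_eq']
    simp
  have h3 : ∑ z ∈ ({x, y} : Finset V), ∑ w ∈ ({x, y} : Finset V),
      ((if z = x then b else 0) + (if z = y then c else 0)) *
      ((if w = x then b else 0) + (if w = y then c else 0)) * h (z - w) =
      b ^ 2 + c ^ 2 + 2 * b * c * h (x - y) := by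
    have h4 : ∀ (g : V → ℝ), ∑ z ∈ ({x, y} : Finset V),
      ((if z = x then b else 0) + (if z = y then c else 0)) * g z = b * g x + c * g y := h2
    have h5 : ∀ z, ∑ w ∈ ({x, y} : Finset V),
      ((if z = x then b else 0) + (if z = y then c else 0)) *
      ((if w = x then b else 0) + (if w = y then c else 0)) * h (z - w) =
      ((if z = x then b else 0) + (if z = y then c else 0)) * (b * h (z - x) + c * h (z - y)) := by
      intro z
      rw [← h4 (fun w => h (z - w)), Finset.mul_sum]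
      refine Finset.sum_congr rfl fun w _ => by ring
    simp_rw [h5]
    rw [h4 (fun z => b * h (z - x) + c * h (z - y))]
    have h6 : h (y - x) = h (x - y) := by rw [← hs (x - y)]; congr 1; abel
    simp only [sub_self, h0, h6]
    ring
  rw [h3] at h1
  rw [← h1]
  congr 1
  ext e
  exact (h2 e).symm

theorem one_point (hμ : IsSlice h μ) (hs : ∀ x, h (-x) = h x) (h0 : h 0 = 1) (b : ℝ) (x : V) :
    μ.map (fun e => b * e x) = gaussianReal 0 (Real.toNNReal (b ^ 2)) := by
  have h1 := two_point hμ hs h0 b 0 x x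
  simpa using h1

/-- law of a time sum of slice functionals -/
theorem time_sum (X : ℕ → (V → ℝ) → ℝ) (hX : ∀ n, Measurable (X n)) (v : ℕ → NNReal)
    (hl : ∀ n, μ.map (X n) = gaussianReal 0 (v n)) (s : Finset ℕ) :
    (PP μ).map (fun u => ∑ n ∈ s, X n (u n)) = gaussianReal 0 (∑ n ∈ s, v n) := by
  have hI : iIndepFun (fun (n : ℕ) (u : Env) => X n (u n)) (PP μ) :=
    iIndepFun_infinitePi (P := fun _ : ℕ => μ) (X := X) hX
  refine sum_gauss (P := PP μ) (fun n u => X n (u n)) (fun n => (hX n).comp (measurable_pi_apply n)) hI v ?_ s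
  intro n
  have h1 := Measure.infinitePi_map_eval (fun _ : ℕ => μ) n
  have h2 : (PP μ).map (fun u => X n (u n)) = ((PP μ).map (fun u => u n)).map (X n) :=
    (Measure.map_map (hX n) (measurable_pi_apply n)).symm
  rw [h2, h1, hl]

theorem meas_coord (n : ℕ) (y : V) : Measurable fun u : Env => u n y :=
  measurable_pi_iff.mp (measurable_pi_apply (X := fun _ : ℕ => V → ℝ) n) y

/-- slice-wise scaled environment -/
def scl (θ : ℕ → ℝ) (u : Env) : Env := fun n y => θ n * u n y

theorem update_zero_eq (u : Env) (n : ℕ) :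
    Function.update u n 0 = scl (fun m => if m = n then 0 else 1) u := by
  ext m y
  by_cases h : m = n
  · subst h; simp [scl]
  · simp [scl, h]

theorem scl_one (u : Env) : scl (fun _ => 1) u = u := by
  ext n y; simp [scl]

theorem measurable_scl (θ : ℕ → ℝ) (n : ℕ) (y : V) : Measurable fun u : Env => scl θ u n y := by
  unfold scl
  exact (meas_coord n y).const_mul _

/-- exponential moments along a path, with sign `b = ± β` -/
theorem path_exp (hμ : IsSlice h μ) (hs : ∀ x, h (-x) = h x) (h0 : h 0 = 1) (b k : ℝ) (θ : ℕ → ℝ)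
    (y : ℕ → V) (N : ℕ) :
    Integrable (fun u : Env => Real.exp (∑ n ∈ Finset.range N, (b * scl θ u n (y n) - k))) (PP μ) ∧
    ∫ u : Env, Real.exp (∑ n ∈ Finset.range N, (b * scl θ u n (y n) - k)) ∂(PP μ) =
      Real.exp (∑ n ∈ Finset.range N, ((b * θ n) ^ 2 / 2 - k)) := by
  have h1 := time_sum (μ := μ) (fun n e => (b * θ n) * e (y n)) (fun n => by fun_prop)
    (fun n => Real.toNNReal ((b * θ n) ^ 2)) (fun n => one_point hμ hs h0 (b * θ n) (y n))
    (Finset.range N)
  have hm : Measurable fun u : Env => ∑ n ∈ Finset.range N, (b * θ n) * u n (y n) :=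
    Finset.measurable_sum _ fun n _ => (meas_coord n (y n)).const_mul _
  obtain ⟨h2, h3⟩ := exp_gauss hm h1
  have h4 : ∀ u : Env, Real.exp (∑ n ∈ Finset.range N, (b * scl θ u n (y n) - k)) =
      Real.exp (-(N * k)) * Real.exp (∑ n ∈ Finset.range N, (b * θ n) * u n (y n)) := by
    intro u
    rw [← Real.exp_add]
    congr 1
    rw [Finset.sum_sub_distrib]
    simp only [Finset.sum_const, Finset.card_range, nsmul_eq_mul, scl]
    have : ∑ n ∈ Finset.range N, b * (θ n * u n (y n)) = ∑ n ∈ Finset.range N, b * θ n * u n (y n) :=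
      Finset.sum_congr rfl fun n _ => by ring
    rw [this]; ring
  simp_rw [h4]
  refine ⟨h2.const_mul _, ?_⟩
  rw [integral_const_mul, h3, ← Real.exp_add]
  congr 1
  rw [Finset.sum_sub_distrib]
  simp only [Finset.sum_const, Finset.card_range, nsmul_eq_mul]
  push_cast
  rw [Finset.sum_congr rfl fun n _ => Real.coe_toNNReal _ (sq_nonneg (b * θ n)), Finset.sum_div]
  ring

theorem Z_scl_integrable (hμ : IsSlice h μ) (hs : ∀ x, h (-x) = h x) (h0 : h 0 = 1) (β : ℝ)
    (θ : ℕ → ℝ) (N : ℕ) (x : V) : Integrable (fun u : Env => Z β N (scl θ u) x) (PP μ) := by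
  simp_rw [Z_eq]
  refine Integrable.const_mul ?_ _
  exact integrable_finsetSum _ fun σ _ =>
    (path_exp hμ hs h0 β (β ^ 2 / 2) θ (fun n => x + pos σ (n + 1)) N).1

theorem Z_integral (hμ : IsSlice h μ) (hs : ∀ x, h (-x) = h x) (h0 : h 0 = 1) (β : ℝ)
    (N : ℕ) (x : V) : ∫ u : Env, Z β N u x ∂(PP μ) = 1 := by
  simp_rw [Z_eq]
  rw [integral_const_mul, integral_finsetSum]
  · have h1 : ∀ σ : Fin N → Fin 3 × Bool, ∫ u : Env, Real.exp (∑ n ∈ Finset.range N,
        (β * u n (x + pos σ (n + 1)) - β ^ 2 / 2)) ∂(PP μ) = 1 := by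
      intro σ
      have h2 := (path_exp hμ hs h0 β (β ^ 2 / 2) (fun _ => 1) (fun n => x + pos σ (n + 1)) N).2
      simp_rw [scl_one] at h2
      rw [h2]
      simp
    simp_rw [h1]
    simp
  · intro σ _
    have h2 := (path_exp hμ hs h0 β (β ^ 2 / 2) (fun _ => 1) (fun n => x + pos σ (n + 1)) N).1
    simp_rw [scl_one] at h2
    exact h2

/-- harmonic-arithmetic mean -/
theorem inv_avg_le {ι : Type*} (s : Finset ι) (hs : s.Nonempty) (c a : ι → ℝ)
    (hc : ∀ i ∈ s, 0 < c i) (ha : ∀ i ∈ s, 0 < a i) :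
    (∑ i ∈ s, c i) / (∑ i ∈ s, c i * a i) ≤ (∑ i ∈ s, c i * (a i)⁻¹) / (∑ i ∈ s, c i) := by
  have h1 : 0 < ∑ i ∈ s, c i := Finset.sum_pos hc hs
  have h2 : 0 < ∑ i ∈ s, c i * a i := Finset.sum_pos (fun i hi => mul_pos (hc i hi) (ha i hi)) hs
  rw [div_le_div_iff₀ h2 h1]
  have h3 := Finset.sum_mul_sq_le_sq_mul_sq s (fun i => √(c i) * √(a i)) (fun i => √(c i) * (√(a i))⁻¹)
  have e1 : ∑ i ∈ s, √(c i) * √(a i) * (√(c i) * (√(a i))⁻¹) = ∑ i ∈ s, c i := by
    refine Finset.sum_congr rfl fun i hi => ?_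
    have := Real.sqrt_pos.mpr (ha i hi)
    have h5 := Real.mul_self_sqrt (hc i hi).le
    field_simp
    nlinarith
  have e2 : ∑ i ∈ s, (√(c i) * √(a i)) ^ 2 = ∑ i ∈ s, c i * a i := by
    refine Finset.sum_congr rfl fun i hi => ?_
    rw [mul_pow, Real.sq_sqrt (hc i hi).le, Real.sq_sqrt (ha i hi).le]
  have e3 : ∑ i ∈ s, (√(c i) * (√(a i))⁻¹) ^ 2 = ∑ i ∈ s, c i * (a i)⁻¹ := by
    refine Finset.sum_congr rfl fun i hi => ?_
    rw [mul_pow, Real.sq_sqrt (hc i hi).le, inv_pow, Real.sq_sqrt (ha i hi).le]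
  rw [e1, e2, e3] at h3
  nlinarith

theorem log_sq_le (z : ℝ) (hz : 0 < z) : (Real.log z) ^ 2 ≤ z + z⁻¹ := by
  have key : ∀ t : ℝ, 0 ≤ t → t ^ 2 ≤ Real.exp t := by
    intro t ht
    have h1 := Real.add_one_le_exp (t / 2 - 1)
    have h2 : Real.exp (t / 2) = Real.exp 1 * Real.exp (t / 2 - 1) := by
      rw [← Real.exp_add]; ring_nf
    have h3 : (2:ℝ) ≤ Real.exp 1 := by
      have := Real.add_one_le_exp (1:ℝ); linarith
    have h4 : t ≤ Real.exp (t / 2) := by
      rw [h2]
      nlinarith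
    have h5 : Real.exp t = Real.exp (t / 2) ^ 2 := by
      rw [← Real.exp_nat_mul]; ring_nf
    rw [h5]
    exact pow_le_pow_left₀ ht h4 2
  have hi : 0 < z⁻¹ := inv_pos.mpr hz
  rcases le_total 1 z with h | h
  · have := key (Real.log z) (Real.log_nonneg h)
    rw [Real.exp_log hz] at this
    linarith
  · have h1 : Real.log z ≤ 0 := Real.log_nonpos hz.le h
    have := key (-Real.log z) (by linarith)
    rw [Real.exp_neg, Real.exp_log hz] at this
    nlinarith

theorem Z_inv_le (β : ℝ) (N : ℕ) (u : Env) (x : V) :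
    (Z β N u x)⁻¹ ≤ ((6:ℝ) ^ N)⁻¹ * ∑ σ : Fin N → Fin 3 × Bool,
      Real.exp (∑ n ∈ Finset.range N, ((-β) * u n (x + pos σ (n + 1)) - (-(β ^ 2 / 2)))) := by
  have h1 := inv_avg_le (Finset.univ : Finset (Fin N → Fin 3 × Bool)) Finset.univ_nonempty
    (fun _ => ((6:ℝ) ^ N)⁻¹)
    (fun σ => Real.exp (∑ n ∈ Finset.range N, (β * u n (x + pos σ (n + 1)) - β ^ 2 / 2)))
    (fun _ _ => by positivity) (fun _ _ => Real.exp_pos _)
  have h2 : ∑ _σ : Fin N → Fin 3 × Bool, ((6:ℝ) ^ N)⁻¹ = 1 := by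
    simp
  rw [h2, ← Finset.mul_sum, ← Z_eq, div_one, one_div, ← Finset.mul_sum] at h1
  refine h1.trans (le_of_eq ?_)
  congr 1
  refine Finset.sum_congr rfl fun σ _ => ?_
  rw [← Real.exp_neg]
  congr 1
  rw [← Finset.sum_neg_distrib]
  refine Finset.sum_congr rfl fun n _ => by ring

theorem logZ_measurable (β : ℝ) (θ : ℕ → ℝ) (N : ℕ) (x : V) :
    Measurable fun u : Env => Real.log (Z β N (scl θ u) x) :=
  (Z_measurable β N (fun u => scl θ u) (fun n y => measurable_scl θ n y) x).log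

theorem logZ_sq_integrable (hμ : IsSlice h μ) (hs : ∀ x, h (-x) = h x) (h0 : h 0 = 1) (β : ℝ)
    (θ : ℕ → ℝ) (N : ℕ) (x : V) :
    Integrable (fun u : Env => (Real.log (Z β N (scl θ u) x)) ^ 2) (PP μ) := by
  have h1 := Z_scl_integrable hμ hs h0 β θ N x
  have h2 : Integrable (fun u : Env => ((6:ℝ) ^ N)⁻¹ * ∑ σ : Fin N → Fin 3 × Bool,
      Real.exp (∑ n ∈ Finset.range N, ((-β) * scl θ u n (x + pos σ (n + 1)) - (-(β ^ 2 / 2))))) (PP μ) := by
    refine Integrable.const_mul ?_ _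
    exact integrable_finsetSum _ fun σ _ =>
      (path_exp hμ hs h0 (-β) (-(β ^ 2 / 2)) θ (fun n => x + pos σ (n + 1)) N).1
  refine (h1.add h2).mono' ((logZ_measurable β θ N x).pow_const 2).aestronglyMeasurable ?_
  filter_upwards with u
  rw [Real.norm_of_nonneg (sq_nonneg _)]
  have h3 := log_sq_le _ (Z_pos β N (scl θ u) x)
  have h4 := Z_inv_le β N (scl θ u) x
  simp only [Pi.add_apply]
  linarith

end Pool.Agent.helper98.DPZ
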