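import Mathlib
import Pool.Agent.helper98.DPZ.Law

set_option autoImplicit false
set_option linter.unusedSectionVars false

open MeasureTheory ProbabilityTheory Filter

namespace Pool.Agent.helper98.DPZ

variable {h : V → ℝ} {μ : Measure (V → ℝ)} [IsProbabilityMeasure μ]

theorem slice_exp (hμ : IsSlice h μ) (hs : ∀ x, h (-x) = h x) (h0 : h 0 = 1) (b : ℝ) (y : V) :
    Integrable (fun e : V → ℝ => Real.exp (b * e y)) μ ∧
    ∫ e : V → ℝ, Real.exp (b * e y) ∂μ = Real.exp (b ^ 2 / 2) := by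
  have h1 := one_point hμ hs h0 b y
  obtain ⟨h2, h3⟩ := exp_gauss (by fun_prop) h1
  refine ⟨h2, ?_⟩
  rw [h3, Real.coe_toNNReal _ (sq_nonneg b)]

theorem path_update (β : ℝ) (N i : ℕ) (hi : i < N) (u : Env) (e : V → ℝ) (y : ℕ → V) :
    ∑ n ∈ Finset.range N, (β * Function.update u i e n (y n) - β ^ 2 / 2) =
      ∑ n ∈ Finset.range N, (β * Function.update u i 0 n (y n) - β ^ 2 / 2) + β * e (y i) := by
  rw [← sub_eq_iff_eq_add', ← Finset.sum_sub_distrib]
  rw [Finset.sum_eq_single_of_mem i (Finset.mem_range.mpr hi)]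
  · simp
  · intro n _ hn
    simp [Function.update_of_ne hn]

theorem ratio_bound (β : ℝ) (N i : ℕ) (hi : i < N) (u : Env) (e : V → ℝ) (x : V) :
    (Real.log (Z β N (Function.update u i e) x) - Real.log (Z β N (Function.update u i 0) x)) ^ 2 ≤
    (∑ σ : Fin N → Fin 3 × Bool,
      Real.exp (∑ n ∈ Finset.range N, (β * Function.update u i 0 n (x + pos σ (n + 1)) - β ^ 2 / 2)) *
        (Real.exp (β * e (x + pos σ (i + 1))) + Real.exp (-β * e (x + pos σ (i + 1))))) /
    (∑ σ : Fin N → Fin 3 × Bool,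
      Real.exp (∑ n ∈ Finset.range N, (β * Function.update u i 0 n (x + pos σ (n + 1)) - β ^ 2 / 2))) := by
  obtain ⟨c, hc⟩ : ∃ c : (Fin N → Fin 3 × Bool) → ℝ, c = fun σ =>
    Real.exp (∑ n ∈ Finset.range N, (β * Function.update u i 0 n (x + pos σ (n + 1)) - β ^ 2 / 2)) :=
    ⟨_, rfl⟩
  obtain ⟨a, ha⟩ : ∃ a : (Fin N → Fin 3 × Bool) → ℝ, a = fun σ =>
    Real.exp (β * e (x + pos σ (i + 1))) := ⟨_, rfl⟩
  have hc0 : ∀ σ, 0 < c σ := fun σ => by rw [hc]; exact Real.exp_pos _
  have ha0 : ∀ σ, 0 < a σ := fun σ => by rw [ha]; exact Real.exp_pos _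
  have hZ0 : Z β N (Function.update u i 0) x = ((6:ℝ) ^ N)⁻¹ * ∑ σ, c σ := by
    rw [Z_eq, hc]
  have hZe : Z β N (Function.update u i e) x = ((6:ℝ) ^ N)⁻¹ * ∑ σ, c σ * a σ := by
    rw [Z_eq, hc, ha]
    congr 1
    refine Finset.sum_congr rfl fun σ _ => ?_
    rw [path_update β N i hi u e (fun n => x + pos σ (n + 1)), Real.exp_add]
  have hS : 0 < ∑ σ, c σ := Finset.sum_pos (fun σ _ => hc0 σ) Finset.univ_nonempty
  have hSa : 0 < ∑ σ, c σ * a σ :=
    Finset.sum_pos (fun σ _ => mul_pos (hc0 σ) (ha0 σ)) Finset.univ_nonempty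
  have h6 : (0:ℝ) < ((6:ℝ) ^ N)⁻¹ := by positivity
  have hinv : ∀ σ, Real.exp (-β * e (x + pos σ (i + 1))) = (a σ)⁻¹ := by
    intro σ; rw [ha, neg_mul, Real.exp_neg]
  have hgoal : (∑ σ : Fin N → Fin 3 × Bool,
      Real.exp (∑ n ∈ Finset.range N, (β * Function.update u i 0 n (x + pos σ (n + 1)) - β ^ 2 / 2)) *
        (Real.exp (β * e (x + pos σ (i + 1))) + Real.exp (-β * e (x + pos σ (i + 1))))) /
    (∑ σ : Fin N → Fin 3 × Bool,
      Real.exp (∑ n ∈ Finset.range N, (β * Function.update u i 0 n (x + pos σ (n + 1)) - β ^ 2 / 2)))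
      = (∑ σ, c σ * a σ) / (∑ σ, c σ) + (∑ σ, c σ * (a σ)⁻¹) / (∑ σ, c σ) := by
    rw [← add_div, ← Finset.sum_add_distrib, hc]
    congr 1
    refine Finset.sum_congr rfl fun σ _ => ?_
    rw [hinv, mul_add, ha]
  rw [hgoal, hZ0, hZe, Real.log_mul h6.ne' hS.ne', Real.log_mul h6.ne' hSa.ne']
  have h7 : Real.log ((6:ℝ) ^ N)⁻¹ + Real.log (∑ σ, c σ * a σ) -
      (Real.log ((6:ℝ) ^ N)⁻¹ + Real.log (∑ σ, c σ)) = Real.log ((∑ σ, c σ * a σ) / ∑ σ, c σ) := by
    rw [Real.log_div hSa.ne' hS.ne']; ring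
  rw [h7]
  refine (log_sq_le _ (div_pos hSa hS)).trans ?_
  have h8 := inv_avg_le (Finset.univ : Finset (Fin N → Fin 3 × Bool)) Finset.univ_nonempty c a
    (fun σ _ => hc0 σ) (fun σ _ => ha0 σ)
  rw [inv_div]
  linarith

/-- resampling of one slice changes `log Z` by `O(1)` in `L²` -/
theorem slice_var (hμ : IsSlice h μ) (hs : ∀ x, h (-x) = h x) (h0 : h 0 = 1) (β : ℝ) (N i : ℕ)
    (hi : i < N) (x : V) :
    ∫ u : Env, (Real.log (Z β N u x) - Real.log (Z β N (Function.update u i 0) x)) ^ 2 ∂(PP μ) ≤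
      2 * Real.exp (β ^ 2 / 2) := by
  have hmp := mp_upd μ i
  have hm : Measurable fun u : Env => (Real.log (Z β N u x) - Real.log (Z β N (Function.update u i 0) x)) ^ 2 := by
    have h1 := logZ_measurable β (fun _ => 1) N x
    simp_rw [scl_one] at h1
    have h2 := logZ_measurable β (fun m => if m = i then 0 else 1) N x
    simp_rw [← update_zero_eq] at h2
    exact (h1.sub h2).pow_const 2
  have hint : Integrable (fun u : Env => (Real.log (Z β N u x) - Real.log (Z β N (Function.update u i 0) x)) ^ 2) (PP μ) := by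
    have h1 := logZ_measurable β (fun _ => 1) N x
    have h1' := logZ_sq_integrable hμ hs h0 β (fun _ => 1) N x
    simp_rw [scl_one] at h1 h1'
    have h2 := logZ_measurable β (fun m => if m = i then 0 else 1) N x
    have h2' := logZ_sq_integrable hμ hs h0 β (fun m => if m = i then 0 else 1) N x
    simp_rw [← update_zero_eq] at h2 h2'
    exact sq_sub_integrable h1.aestronglyMeasurable h2.aestronglyMeasurable h1' h2'
  have hI : ∫ u : Env, (Real.log (Z β N u x) - Real.log (Z β N (Function.update u i 0) x)) ^ 2 ∂(PP μ) =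
      ∫ p : Env × (V → ℝ), (Real.log (Z β N (Function.update p.1 i p.2) x) -
        Real.log (Z β N (Function.update p.1 i 0) x)) ^ 2 ∂((PP μ).prod μ) := by
    have h := integral_map (μ := (PP μ).prod μ) hmp.measurable.aemeasurable
      (f := fun u : Env => (Real.log (Z β N u x) - Real.log (Z β N (Function.update u i 0) x)) ^ 2)
      hm.aestronglyMeasurable
    rw [hmp.map_eq] at h
    rw [h]
    refine integral_congr_ae (Eventually.of_forall fun p => ?_)
    simp only [Function.update_idem]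
  have hint2 : Integrable (fun p : Env × (V → ℝ) => (Real.log (Z β N (Function.update p.1 i p.2) x) -
        Real.log (Z β N (Function.update p.1 i 0) x)) ^ 2) ((PP μ).prod μ) := by
    have h := hmp.integrable_comp_of_integrable hint
    refine h.congr (Eventually.of_forall fun p => ?_)
    simp only [Function.update_idem, Function.comp_def]
  rw [hI, integral_prod _ hint2]
  have hinner : ∀ u : Env, ∫ e : V → ℝ, (Real.log (Z β N (Function.update u i e) x) -
        Real.log (Z β N (Function.update u i 0) x)) ^ 2 ∂μ ≤ 2 * Real.exp (β ^ 2 / 2) := by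
    intro u
    obtain ⟨c, hc⟩ : ∃ c : (Fin N → Fin 3 × Bool) → ℝ, c = fun σ =>
      Real.exp (∑ n ∈ Finset.range N, (β * Function.update u i 0 n (x + pos σ (n + 1)) - β ^ 2 / 2)) :=
      ⟨_, rfl⟩
    have hc0 : ∀ σ, 0 < c σ := fun σ => by rw [hc]; exact Real.exp_pos _
    have hS : 0 < ∑ σ, c σ := Finset.sum_pos (fun σ _ => hc0 σ) Finset.univ_nonempty
    have hb : ∀ e : V → ℝ, (Real.log (Z β N (Function.update u i e) x) -
        Real.log (Z β N (Function.update u i 0) x)) ^ 2 ≤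
        (∑ σ, c σ * (Real.exp (β * e (x + pos σ (i + 1))) + Real.exp (-β * e (x + pos σ (i + 1))))) /
        (∑ σ, c σ) := by
      intro e
      have := ratio_bound β N i hi u e x
      rw [hc]
      exact this
    have hI1 : ∀ σ : Fin N → Fin 3 × Bool, Integrable (fun e : V → ℝ =>
        Real.exp (β * e (x + pos σ (i + 1))) + Real.exp (-β * e (x + pos σ (i + 1)))) μ :=
      fun σ => (slice_exp hμ hs h0 β _).1.add (slice_exp hμ hs h0 (-β) _).1
    have hI2 : Integrable (fun e : V → ℝ => (∑ σ, c σ * (Real.exp (β * e (x + pos σ (i + 1)))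
        + Real.exp (-β * e (x + pos σ (i + 1))))) / (∑ σ, c σ)) μ :=
      (integrable_finsetSum _ fun σ _ => (hI1 σ).const_mul _).div_const _
    refine (integral_mono_of_nonneg (Eventually.of_forall fun e => sq_nonneg _) hI2
      (Eventually.of_forall hb)).trans (le_of_eq ?_)
    rw [integral_div, integral_finsetSum _ fun σ _ => (hI1 σ).const_mul _]
    have h1 : ∀ σ : Fin N → Fin 3 × Bool, ∫ e : V → ℝ, c σ *
        (Real.exp (β * e (x + pos σ (i + 1))) + Real.exp (-β * e (x + pos σ (i + 1)))) ∂μ =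
        c σ * (2 * Real.exp (β ^ 2 / 2)) := by
      intro σ
      rw [integral_const_mul, integral_add (slice_exp hμ hs h0 β _).1 (slice_exp hμ hs h0 (-β) _).1,
        (slice_exp hμ hs h0 β _).2, (slice_exp hμ hs h0 (-β) _).2]
      ring_nf
    simp_rw [h1]
    rw [← Finset.sum_mul]
    field_simp
  calc ∫ u : Env, ∫ e : V → ℝ, (Real.log (Z β N (Function.update u i e) x) -
        Real.log (Z β N (Function.update u i 0) x)) ^ 2 ∂μ ∂(PP μ)
      ≤ ∫ _u : Env, 2 * Real.exp (β ^ 2 / 2) ∂(PP μ) :=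
        integral_mono_of_nonneg (Eventually.of_forall fun u => integral_nonneg fun e => sq_nonneg _)
          (integrable_const _) (Eventually.of_forall hinner)
    _ = 2 * Real.exp (β ^ 2 / 2) := by simp

/-- mean of `log Z` -/
noncomputable def Am (μ : Measure (V → ℝ)) [IsProbabilityMeasure μ] (β : ℝ) (N : ℕ) (x : V) : ℝ :=
  ∫ u : Env, Real.log (Z β N u x) ∂(PP μ)

theorem logZ_meas (β : ℝ) (N : ℕ) (x : V) : Measurable fun u : Env => Real.log (Z β N u x) := by
  have h1 := logZ_measurable β (fun _ => 1) N x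
  simpa only [scl_one] using h1

theorem logZ_sq_int (hμ : IsSlice h μ) (hs : ∀ x, h (-x) = h x) (h0 : h 0 = 1) (β : ℝ)
    (N : ℕ) (x : V) : Integrable (fun u : Env => (Real.log (Z β N u x)) ^ 2) (PP μ) := by
  have h1 := logZ_sq_integrable hμ hs h0 β (fun _ => 1) N x
  simpa only [scl_one] using h1

theorem logZ_int (hμ : IsSlice h μ) (hs : ∀ x, h (-x) = h x) (h0 : h 0 = 1) (β : ℝ)
    (N : ℕ) (x : V) : Integrable (fun u : Env => Real.log (Z β N u x)) (PP μ) :=
  integrable_of_sq (logZ_meas β N x).aestronglyMeasurable (logZ_sq_int hμ hs h0 β N x)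

/-- variance bound -/
theorem logZ_var (hμ : IsSlice h μ) (hs : ∀ x, h (-x) = h x) (h0 : h 0 = 1) (β : ℝ)
    (N : ℕ) (x : V) :
    ∫ u : Env, (Real.log (Z β N u x) - Am μ β N x) ^ 2 ∂(PP μ) ≤ N * (2 * Real.exp (β ^ 2 / 2)) := by
  have h1 := efron_stein μ N (fun u : Env => Real.log (Z β N u x))
    (fun i (u : Env) => Real.log (Z β N (Function.update u i 0) x)) (logZ_meas β N x)
    (fun i => by
      have h2 := logZ_measurable β (fun m => if m = i then 0 else 1) N x
      simp_rw [← update_zero_eq] at h2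
      exact h2)
    (logZ_sq_int hμ hs h0 β N x)
    (fun i => by
      have h2' := logZ_sq_integrable hμ hs h0 β (fun m => if m = i then 0 else 1) N x
      simp_rw [← update_zero_eq] at h2'
      exact h2')
    (fun u v huv => by
      show Real.log (Z β N u x) = Real.log (Z β N v x)
      rw [Z, Z, T_congr β N u v huv])
    (fun i u e => by simp only [Function.update_idem])
  have h2 := int_sq_sub (logZ_int hμ hs h0 β N x) (logZ_sq_int hμ hs h0 β N x) (Am μ β N x)
  rw [h2]
  have h3 : ∑ i ∈ Finset.range N, ∫ u : Env,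
      (Real.log (Z β N u x) - Real.log (Z β N (Function.update u i 0) x)) ^ 2 ∂(PP μ) ≤
      ∑ _i ∈ Finset.range N, 2 * Real.exp (β ^ 2 / 2) :=
    Finset.sum_le_sum fun i hi => slice_var hμ hs h0 β N i (Finset.mem_range.mp hi) x
  simp only [Finset.sum_const, Finset.card_range, nsmul_eq_mul] at h3
  have h4 : ∫ u : Env, Real.log (Z β N u x) ∂(PP μ) = Am μ β N x := rfl
  rw [h4] at h1 ⊢
  nlinarith

end Pool.Agent.helper98.DPZ
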