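import Mathlib
import Pool.Agent.helper98.DPZ.Var

set_option autoImplicit false
set_option linter.unusedSectionVars false

open MeasureTheory ProbabilityTheory Filter

namespace Pool.Agent.helper98.DPZ

/-- laws of fields are determined by finite linear functionals -/
theorem field_unique {ι : Type*} (μ ν : Measure (ι → ℝ)) [IsProbabilityMeasure μ]
    [IsProbabilityMeasure ν]
    (H : ∀ (s : Finset ι) (a : ι → ℝ), μ.map (fun e => ∑ x ∈ s, a x * e x) =
      ν.map (fun e => ∑ x ∈ s, a x * e x)) : μ = ν := by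
  classical
  have hfin : ∀ I : Finset ι, μ.map I.restrict = ν.map I.restrict := by
    intro I
    have m1 : IsProbabilityMeasure (μ.map (I.restrict (π := fun _ : ι => ℝ))) :=
      Measure.isProbabilityMeasure_map (Finset.measurable_restrict I).aemeasurable
    have m2 : IsProbabilityMeasure (ν.map (I.restrict (π := fun _ : ι => ℝ))) :=
      Measure.isProbabilityMeasure_map (Finset.measurable_restrict I).aemeasurable
    refine Measure.ext_of_charFunDual ?_
    ext L
    rw [charFunDual_eq_charFun_map_one, charFunDual_eq_charFun_map_one,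
      Measure.map_map (by fun_prop) (by fun_prop), Measure.map_map (by fun_prop) (by fun_prop)]
    have hL : (L ∘ I.restrict (π := fun _ : ι => ℝ)) = fun e : ι → ℝ =>
        ∑ x ∈ I, (if hx : x ∈ I then L (Pi.single ⟨x, hx⟩ 1) else 0) * e x := by
      ext e
      simp only [Function.comp_apply]
      have h1 : I.restrict (π := fun _ : ι => ℝ) e = ∑ j : I, e j • (Pi.single j (1:ℝ) : I → ℝ) := by
        ext j
        simp [Finset.sum_apply, Pi.single_apply]
      rw [h1, map_sum]
      rw [← Finset.sum_attach I (fun x => (if hx : x ∈ I then L (Pi.single ⟨x, hx⟩ 1) else 0) * e x)]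
      rw [← Finset.univ_eq_attach]
      refine Finset.sum_congr rfl fun j _ => ?_
      rw [map_smul, smul_eq_mul, dif_pos j.2, mul_comm]
    rw [hL, H]
  have h1 : IsProjectiveLimit μ (fun I => μ.map I.restrict) := fun I => rfl
  have h2 : IsProjectiveLimit ν (fun I => μ.map I.restrict) := fun I => (hfin I).symm
  have : ∀ I : Finset ι, IsFiniteMeasure (μ.map (I.restrict (π := fun _ : ι => ℝ))) := fun I => inferInstance
  exact h1.unique h2

variable {h : V → ℝ} {μ : Measure (V → ℝ)} [IsProbabilityMeasure μ]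

theorem slice_shift (hμ : IsSlice h μ) (x : V) : μ.map (fun (e : V → ℝ) (y : V) => e (y + x)) = μ := by
  classical
  have hm : Measurable (fun (e : V → ℝ) (y : V) => e (y + x)) :=
    measurable_pi_lambda _ fun y => measurable_pi_apply _
  have : IsProbabilityMeasure (μ.map (fun (e : V → ℝ) (y : V) => e (y + x))) :=
    Measure.isProbabilityMeasure_map hm.aemeasurable
  refine field_unique _ _ fun s a => ?_
  rw [Measure.map_map (by fun_prop) hm, hμ.law s a]
  have h1 := hμ.law (s.image (fun y => y + x)) (fun z => a (z - x))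
  have hinj : Set.InjOn (fun y => y + x) (s : Set V) := fun a _ b _ hab => by simpa using hab
  have h2 : (fun e : V → ℝ => ∑ z ∈ s.image (fun y => y + x), a (z - x) * e z) =
      (fun e : V → ℝ => ∑ y ∈ s, a y * e y) ∘ (fun (e : V → ℝ) (y : V) => e (y + x)) := by
    ext e
    rw [Finset.sum_image hinj]
    simp
  have h3 : ∑ z ∈ s.image (fun y => y + x), ∑ w ∈ s.image (fun y => y + x),
      a (z - x) * a (w - x) * h (z - w) = ∑ z ∈ s, ∑ w ∈ s, a z * a w * h (z - w) := by
    rw [Finset.sum_image hinj]
    refine Finset.sum_congr rfl fun z _ => ?_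
    rw [Finset.sum_image hinj]
    simp
  rw [h2, h3] at h1
  exact h1

theorem env_shift (hμ : IsSlice h μ) (x : V) :
    MeasurePreserving (fun (u : Env) (n : ℕ) (y : V) => u n (y + x)) (PP μ) (PP μ) := by
  have hm : Measurable (fun (e : V → ℝ) (y : V) => e (y + x)) :=
    measurable_pi_lambda _ fun y => measurable_pi_apply _
  refine ⟨?_, ?_⟩
  · exact measurable_pi_lambda _ fun n => measurable_pi_lambda _ fun y => meas_coord n _
  · have h1 := Measure.infinitePi_map_pi (μ := fun _ : ℕ => μ)
      (f := fun _ (e : V → ℝ) (y : V) => e (y + x)) (fun _ => hm)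
    rw [slice_shift hμ x] at h1
    exact h1

theorem T_shift (β : ℝ) (N : ℕ) : ∀ (u : Env) (f : V → ℝ) (a x : V),
    T β N (fun n y => u n (y + a)) (fun y => f (y + a)) x = T β N u f (x + a) := by
  induction N with
  | zero => intro u f a x; rfl
  | succ N ih =>
    intro u f a x
    rw [T_succ, T_succ]
    congr 1
    refine Finset.sum_congr rfl fun e _ => ?_
    have h1 := ih (sh u) f a (x + stp e)
    have h2 : sh (fun n y => u n (y + a)) = fun n y => sh u n (y + a) := rfl
    rw [h2, h1, add_right_comm]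

theorem Z_shift (β : ℝ) (N : ℕ) (u : Env) (a x : V) :
    Z β N (fun n y => u n (y + a)) x = Z β N u (x + a) :=
  T_shift β N u (fun _ => 1) a x

theorem Am_const (hμ : IsSlice h μ) (β : ℝ) (N : ℕ) (x : V) : Am μ β N x = Am μ β N 0 := by
  have h1 := env_shift hμ x
  unfold Am
  have h2 := integral_map (μ := PP μ) h1.measurable.aemeasurable
    (f := fun u : Env => Real.log (Z β N u 0)) (logZ_meas β N 0).aestronglyMeasurable
  rw [h1.map_eq] at h2
  rw [h2]
  refine integral_congr_ae (Eventually.of_forall fun u => ?_)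
  simp only [Z_shift, zero_add]

/-- superadditivity -/
theorem Am_super (hμ : IsSlice h μ) (hs : ∀ x, h (-x) = h x) (h0 : h 0 = 1) (β : ℝ)
    (N M : ℕ) : Am μ β N 0 + Am μ β M 0 ≤ Am μ β (N + M) 0 := by
  have hmp := mp_gcc μ N
  have hint : Integrable (fun p : Env × Env => Real.log (Z β (N + M) (gcc N p.1 p.2) 0))
      ((PP μ).prod (PP μ)) := hmp.integrable_comp_of_integrable (logZ_int hμ hs h0 β (N + M) 0)
  have h1 : Am μ β (N + M) 0 = ∫ u : Env, ∫ u' : Env, Real.log (Z β (N + M) (gcc N u u') 0)
      ∂(PP μ) ∂(PP μ) := by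
    unfold Am
    have h2 := integral_map (μ := (PP μ).prod (PP μ)) hmp.measurable.aemeasurable
      (f := fun u : Env => Real.log (Z β (N + M) u 0)) (logZ_meas β (N + M) 0).aestronglyMeasurable
    rw [hmp.map_eq] at h2
    rw [h2, integral_prod _ hint]
  rw [h1]
  have h3 : ∀ u : Env, Integrable (fun u' : Env => Real.log (Z β (N + M) (gcc N u u') 0)) (PP μ) →
      Real.log (Z β N u 0) + Am μ β M 0 ≤ ∫ u' : Env, Real.log (Z β (N + M) (gcc N u u') 0) ∂(PP μ) := by
    intro u hu
    have hZ := Z_pos β N u 0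
    have h4 : ∀ u' : Env, Real.log (Z β N u 0) +
        T β N u (fun y => Real.log (Z β M u' y)) 0 / Z β N u 0 ≤
        Real.log (Z β (N + M) (gcc N u u') 0) := by
      intro u'
      have h5 : Z β (N + M) (gcc N u u') 0 = T β N u (T β M u' (fun _ => 1)) 0 :=
        T_cc β N M u u' _ 0
      rw [h5]
      exact T_log β N u (fun y => Z β M u' y) (fun y => Z_pos β M u' y) 0
    have h6 : Integrable (fun u' : Env => T β N u (fun y => Real.log (Z β M u' y)) 0) (PP μ) :=
      T_integrable (PP μ) β N u (fun u' y => Real.log (Z β M u' y))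
        (fun y => logZ_int hμ hs h0 β M y) 0
    have h7 : ∫ u' : Env, T β N u (fun y => Real.log (Z β M u' y)) 0 ∂(PP μ) =
        Am μ β M 0 * Z β N u 0 := by
      rw [T_integral (PP μ) β N u (fun u' y => Real.log (Z β M u' y))
        (fun y => logZ_int hμ hs h0 β M y) 0, ← T_const]
      congr 1
      ext y
      exact Am_const hμ β M y
    calc Real.log (Z β N u 0) + Am μ β M 0
        = ∫ u' : Env, (Real.log (Z β N u 0) +
            T β N u (fun y => Real.log (Z β M u' y)) 0 / Z β N u 0) ∂(PP μ) := by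
          rw [integral_add (integrable_const _) (h6.div_const _), integral_div, h7]
          simp only [integral_const, probReal_univ, one_smul]
          field_simp
      _ ≤ _ := integral_mono ((integrable_const _).add (h6.div_const _)) hu h4
  have h8 : Am μ β N 0 + Am μ β M 0 = ∫ u : Env, (Real.log (Z β N u 0) + Am μ β M 0) ∂(PP μ) := by
    rw [integral_add (logZ_int hμ hs h0 β N 0) (integrable_const _)]
    simp [Am]
  rw [h8]
  refine integral_mono_ae ((logZ_int hμ hs h0 β N 0).add (integrable_const _)) hint.integral_prod_left ?_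
  filter_upwards [hint.prod_right_ae] with u hu
  exact h3 u hu

theorem Am_nonpos (hμ : IsSlice h μ) (hs : ∀ x, h (-x) = h x) (h0 : h 0 = 1) (β : ℝ)
    (N : ℕ) : Am μ β N 0 ≤ 0 := by
  have h1 : Integrable (fun u : Env => Z β N u 0) (PP μ) := by
    have := Z_scl_integrable hμ hs h0 β (fun _ => 1) N 0
    simpa only [scl_one] using this
  have h2 : Am μ β N 0 ≤ ∫ u : Env, (Z β N u 0 - 1) ∂(PP μ) :=
    integral_mono (logZ_int hμ hs h0 β N 0) (h1.sub (integrable_const _))
      (fun u => Real.log_le_sub_one_of_pos (Z_pos β N u 0))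
  rw [integral_sub h1 (integrable_const _), Z_integral hμ hs h0] at h2
  simpa using h2

theorem exists_free (hμ : IsSlice h μ) (hs : ∀ x, h (-x) = h x) (h0 : h 0 = 1) (β : ℝ) :
    ∃ p : ℝ, p ≤ 0 ∧ Tendsto (fun N : ℕ => Am μ β N 0 / N) atTop (nhds p) ∧
      ∀ N : ℕ, N ≠ 0 → Am μ β N 0 / N ≤ p := by
  have hsub : Subadditive (fun N : ℕ => -Am μ β N 0) := by
    intro m n
    have := Am_super hμ hs h0 β m n
    linarith
  have hbdd : BddBelow (Set.range fun n : ℕ => -Am μ β n 0 / n) := by
    refine ⟨0, ?_⟩
    rintro _ ⟨n, rfl⟩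
    have := Am_nonpos hμ hs h0 β n
    exact div_nonneg (by linarith) (Nat.cast_nonneg n)
  have h1 := hsub.tendsto_lim hbdd
  refine ⟨-hsub.lim, ?_, ?_, ?_⟩
  · have h2 : 0 ≤ hsub.lim := ge_of_tendsto' h1 fun n => by
      have := Am_nonpos hμ hs h0 β n
      exact div_nonneg (by linarith) (Nat.cast_nonneg n)
    linarith
  · have h2 := h1.neg
    refine h2.congr fun n => ?_
    ring
  · intro N hN
    have h2 := hsub.lim_le_div hbdd hN
    have h3 : -Am μ β N 0 / N = -(Am μ β N 0 / N) := by ring
    rw [h3] at h2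
    linarith

end Pool.Agent.helper98.DPZ
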