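import Mathlib
import Pool.Agent.helper98.DPZ.Super

set_option autoImplicit false
set_option linter.unusedSectionVars false

open MeasureTheory ProbabilityTheory Filter

namespace Pool.Agent.helper98.DPZ

theorem ae_tendsto_zero {A : Type*} [MeasurableSpace A] {Q : Measure A}
    (f : ℕ → A → ℝ) (hf0 : ∀ k a, 0 ≤ f k a) (hfi : ∀ k, Integrable (f k) Q)
    (B : ℕ → ℝ) (hB : ∀ k, ∫ a, f k a ∂Q ≤ B k) (hS : Summable B) :
    ∀ᵐ a ∂Q, Tendsto (fun k => f k a) atTop (nhds 0) := by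
  have hS' : Summable fun k => ∫ a, f k a ∂Q :=
    Summable.of_nonneg_of_le (fun k => integral_nonneg (hf0 k)) hB hS
  have h1 : ∫⁻ a, ∑' k, ENNReal.ofReal (f k a) ∂Q ≠ ⊤ := by
    rw [lintegral_tsum fun k => (hfi k).aestronglyMeasurable.aemeasurable.ennreal_ofReal]
    have h2 : ∀ k, ∫⁻ a, ENNReal.ofReal (f k a) ∂Q = ENNReal.ofReal (∫ a, f k a ∂Q) := fun k =>
      (ofReal_integral_eq_lintegral_ofReal (hfi k) (Eventually.of_forall (hf0 k))).symm
    simp_rw [h2]
    exact hS'.tsum_ofReal_ne_top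
  have h3 : AEMeasurable (fun a => ∑' k, ENNReal.ofReal (f k a)) Q :=
    AEMeasurable.tsum fun k => (hfi k).aestronglyMeasurable.aemeasurable.ennreal_ofReal
  filter_upwards [ae_lt_top' h3 h1] with a ha
  have h4 := ENNReal.tendsto_atTop_zero_of_tsum_ne_top ha.ne
  have h5 := (ENNReal.tendsto_toReal ENNReal.zero_ne_top).comp h4
  simp only [ENNReal.toReal_zero] at h5
  refine h5.congr fun k => ?_
  simp [ENNReal.toReal_ofReal (hf0 k a)]

theorem tendsto_sqrt_nat : Tendsto Nat.sqrt atTop atTop := by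
  rw [tendsto_atTop]
  intro b
  filter_upwards [eventually_ge_atTop (b * b)] with n hn
  exact Nat.le_sqrt.mpr hn

theorem interp (F : ℕ → ℝ) (p : ℝ) (R : ℕ → ℝ)
    (h1 : Tendsto (fun k : ℕ => F (k ^ 2) / ((k:ℝ) ^ 2)) atTop (nhds p))
    (hR : ∀ k N, k ^ 2 ≤ N → N ≤ (k + 1) ^ 2 → |F N - F (k ^ 2)| ≤ R k)
    (h2 : Tendsto (fun k : ℕ => R k / ((k:ℝ) ^ 2)) atTop (nhds 0)) :
    Tendsto (fun N : ℕ => F N / N) atTop (nhds p) := by
  have e1 : Tendsto (fun N : ℕ => F ((Nat.sqrt N) ^ 2) / ((Nat.sqrt N : ℝ) ^ 2)) atTop (nhds p) :=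
    h1.comp tendsto_sqrt_nat
  have e2 : Tendsto (fun N : ℕ => R (Nat.sqrt N) / ((Nat.sqrt N : ℝ) ^ 2)) atTop (nhds 0) :=
    h2.comp tendsto_sqrt_nat
  have e3 : Tendsto (fun N : ℕ => (F N - F ((Nat.sqrt N) ^ 2)) / ((Nat.sqrt N : ℝ) ^ 2)) atTop (nhds 0) := by
    refine squeeze_zero_norm (fun N => ?_) e2
    rw [Real.norm_eq_abs, abs_div, abs_of_nonneg (sq_nonneg (Nat.sqrt N : ℝ))]
    refine div_le_div_of_nonneg_right (hR _ _ ?_ ?_) (sq_nonneg _)
    · exact Nat.sqrt_le' N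
    · exact (Nat.lt_succ_sqrt' N).le
  have e4 : Tendsto (fun N : ℕ => ((Nat.sqrt N : ℝ) ^ 2) / N) atTop (nhds 1) := by
    have h3 : Tendsto (fun N : ℕ => 1 - 2 / (Nat.sqrt N : ℝ)) atTop (nhds (1 - 0)) :=
      tendsto_const_nhds.sub ((tendsto_const_div_atTop_nhds_zero_nat (2:ℝ)).comp tendsto_sqrt_nat)
    rw [sub_zero] at h3
    refine tendsto_of_tendsto_of_tendsto_of_le_of_le' h3 tendsto_const_nhds ?_ ?_
    · filter_upwards [eventually_ge_atTop 1] with N hN
      have hk : 1 ≤ Nat.sqrt N := Nat.le_sqrt.mpr (by simpa using hN)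
      have hk' : (1:ℝ) ≤ Nat.sqrt N := by exact_mod_cast hk
      have hN' : (1:ℝ) ≤ N := by exact_mod_cast hN
      have hu : (N:ℝ) ≤ (Nat.sqrt N : ℝ) ^ 2 + 2 * Nat.sqrt N := by
        have := Nat.sqrt_le_add N
        have h5 : N ≤ (Nat.sqrt N) ^ 2 + 2 * Nat.sqrt N := by nlinarith
        exact_mod_cast h5
      have hl : (Nat.sqrt N : ℝ) ^ 2 ≤ N := by exact_mod_cast Nat.sqrt_le' N
      rw [le_div_iff₀ (by linarith), sub_mul, one_mul]
      have h6 : 2 * (Nat.sqrt N : ℝ) ≤ 2 / (Nat.sqrt N : ℝ) * N := by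
        rw [div_mul_eq_mul_div, le_div_iff₀ (by linarith)]
        nlinarith
      linarith
    · filter_upwards [eventually_ge_atTop 1] with N hN
      have hN' : (1:ℝ) ≤ N := by exact_mod_cast hN
      have hl : (Nat.sqrt N : ℝ) ^ 2 ≤ N := by exact_mod_cast Nat.sqrt_le' N
      rw [div_le_one (by linarith)]
      exact hl
  have e5 := (e1.add e3).mul e4
  rw [add_zero, mul_one] at e5
  refine e5.congr' ?_
  filter_upwards [eventually_ge_atTop 1] with N hN
  have hk : 1 ≤ Nat.sqrt N := Nat.le_sqrt.mpr (by simpa using hN)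
  have hk' : (1:ℝ) ≤ Nat.sqrt N := by exact_mod_cast hk
  have hN' : (1:ℝ) ≤ N := by exact_mod_cast hN
  have hk0 : (Nat.sqrt N : ℝ) ≠ 0 := by linarith
  have hN0 : (N : ℝ) ≠ 0 := by linarith
  field_simp
  ring

variable {h : V → ℝ} {μ : Measure (V → ℝ)} [IsProbabilityMeasure μ]

theorem logZ_last (β : ℝ) (N : ℕ) (u : Env) (x : V) :
    Real.log (Z β (N + 1) (Function.update u N 0) x) = Real.log (Z β N u x) - β ^ 2 / 2 := by
  have h1 : Function.update u N 0 = cc N u (fun n => Function.update u N 0 (n + N)) := by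
    ext n y
    simp only [cc]
    split_ifs with hn
    · rw [Function.update_of_ne (by omega)]
    · rw [Nat.sub_add_cancel (by omega)]
  have h2 : Z β (N + 1) (Function.update u N 0) x = Real.exp (-(β ^ 2 / 2)) * Z β N u x := by
    unfold Z
    rw [h1, T_cc β N 1]
    have h3 : T β 1 (fun n => Function.update u N 0 (n + N)) (fun _ => 1) =
        fun _ => Real.exp (-(β ^ 2 / 2)) := by
      ext y
      rw [T_succ]
      simp only [zero_add, Function.update_self, Pi.zero_apply, mul_zero, zero_sub, T_zero, mul_one]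
      simp
    rw [h3, T_const]
    rfl
  rw [h2, Real.log_mul (Real.exp_pos _).ne' (Z_pos β N u x).ne', Real.log_exp]
  ring

theorem incr_var (hμ : IsSlice h μ) (hs : ∀ x, h (-x) = h x) (h0 : h 0 = 1) (β : ℝ) (N : ℕ) :
    Integrable (fun u : Env => (Real.log (Z β (N + 1) u 0) - Real.log (Z β N u 0)) ^ 2) (PP μ) ∧
    ∫ u : Env, (Real.log (Z β (N + 1) u 0) - Real.log (Z β N u 0)) ^ 2 ∂(PP μ) ≤
      4 * Real.exp (β ^ 2 / 2) + β ^ 4 / 2 := by
  have hi : Integrable (fun u : Env => (Real.log (Z β (N + 1) u 0) - Real.log (Z β N u 0)) ^ 2) (PP μ) :=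
    sq_sub_integrable (logZ_meas β _ 0).aestronglyMeasurable (logZ_meas β _ 0).aestronglyMeasurable
      (logZ_sq_int hμ hs h0 β _ 0) (logZ_sq_int hμ hs h0 β _ 0)
  refine ⟨hi, ?_⟩
  have h1 := slice_var hμ hs h0 β (N + 1) N (Nat.lt_succ_self N) 0
  have h2' := logZ_sq_integrable hμ hs h0 β (fun m => if m = N then 0 else 1) (N + 1) 0
  have h2 := logZ_measurable β (fun m => if m = N then 0 else 1) (N + 1) 0
  simp_rw [← update_zero_eq] at h2 h2'
  have h3 : Integrable (fun u : Env => (Real.log (Z β (N + 1) u 0) -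
      Real.log (Z β (N + 1) (Function.update u N 0) 0)) ^ 2) (PP μ) :=
    sq_sub_integrable (logZ_meas β _ 0).aestronglyMeasurable h2.aestronglyMeasurable
      (logZ_sq_int hμ hs h0 β _ 0) h2'
  have h4 : ∀ u : Env, (Real.log (Z β (N + 1) u 0) - Real.log (Z β N u 0)) ^ 2 ≤
      2 * (Real.log (Z β (N + 1) u 0) - Real.log (Z β (N + 1) (Function.update u N 0) 0)) ^ 2
        + β ^ 4 / 2 := by
    intro u
    rw [logZ_last]
    nlinarith [sq_nonneg ((Real.log (Z β (N + 1) u 0) - Real.log (Z β N u 0)) + β ^ 2)]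
  calc ∫ u : Env, (Real.log (Z β (N + 1) u 0) - Real.log (Z β N u 0)) ^ 2 ∂(PP μ)
      ≤ ∫ u : Env, (2 * (Real.log (Z β (N + 1) u 0) -
          Real.log (Z β (N + 1) (Function.update u N 0) 0)) ^ 2 + β ^ 4 / 2) ∂(PP μ) :=
        integral_mono hi ((h3.const_mul 2).add (integrable_const _)) h4
    _ = 2 * ∫ u : Env, (Real.log (Z β (N + 1) u 0) -
          Real.log (Z β (N + 1) (Function.update u N 0) 0)) ^ 2 ∂(PP μ) + β ^ 4 / 2 := by
        rw [integral_add (h3.const_mul 2) (integrable_const _), integral_const_mul]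
        simp
    _ ≤ _ := by linarith

theorem summable_inv_sq (c : ℝ) : Summable fun k : ℕ => c / ((k:ℝ) ^ 2) := by
  have h1 : Summable fun k : ℕ => 1 / ((k:ℝ) ^ 2) := Real.summable_one_div_nat_pow.mpr (by norm_num)
  refine (h1.mul_left c).congr fun k => ?_
  ring

/-- almost sure convergence of the free energy -/
theorem as_conv (hμ : IsSlice h μ) (hs : ∀ x, h (-x) = h x) (h0 : h 0 = 1) (β p : ℝ)
    (hp : Tendsto (fun N : ℕ => Am μ β N 0 / N) atTop (nhds p)) :
    ∀ᵐ u ∂(PP μ), Tendsto (fun N : ℕ => Real.log (Z β N u 0) / N) atTop (nhds p) := by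
  obtain ⟨D, hD⟩ : ∃ D, D = 2 * Real.exp (β ^ 2 / 2) := ⟨_, rfl⟩
  obtain ⟨D', hD'⟩ : ∃ D', D' = 4 * Real.exp (β ^ 2 / 2) + β ^ 4 / 2 := ⟨_, rfl⟩
  have hD0 : 0 ≤ D := by rw [hD]; positivity
  have hD0' : 0 ≤ D' := by rw [hD']; positivity
  -- along squares
  have hX := ae_tendsto_zero (Q := PP μ)
    (fun (k : ℕ) (u : Env) => (Real.log (Z β (k ^ 2) u 0) - Am μ β (k ^ 2) 0) ^ 2 / ((k:ℝ) ^ 2) ^ 2)
    (fun k u => by positivity)
    (fun k => by
      refine Integrable.div_const ?_ _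
      exact sq_sub_integrable (logZ_meas β _ 0).aestronglyMeasurable aestronglyMeasurable_const
        (logZ_sq_int hμ hs h0 β _ 0) (integrable_const _))
    (fun k => D / ((k:ℝ) ^ 2))
    (fun k => by
      rw [integral_div]
      have h1 := logZ_var hμ hs h0 β (k ^ 2) 0
      rw [← hD] at h1
      push_cast at h1
      by_cases hk : (k:ℝ) = 0
      · simp [hk]
      · rw [div_le_div_iff₀ (by positivity) (by positivity)]
        have : 0 ≤ (k:ℝ) ^ 2 := sq_nonneg _
        nlinarith)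
    (summable_inv_sq D)
  have hY := ae_tendsto_zero (Q := PP μ)
    (fun (k : ℕ) (u : Env) => ((2 * k + 1 : ℝ) * ∑ N ∈ Finset.Ico (k ^ 2) ((k + 1) ^ 2),
      (Real.log (Z β (N + 1) u 0) - Real.log (Z β N u 0)) ^ 2) / ((k:ℝ) ^ 2) ^ 2)
    (fun k u => by positivity)
    (fun k => by
      refine Integrable.div_const (Integrable.const_mul ?_ _) _
      exact integrable_finsetSum _ fun N _ => (incr_var hμ hs h0 β N).1)
    (fun k => 9 * D' / ((k:ℝ) ^ 2))
    (fun k => by
      rw [integral_div, integral_const_mul, integral_finsetSum _ fun N _ => (incr_var hμ hs h0 β N).1]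
      have h1 : ∑ N ∈ Finset.Ico (k ^ 2) ((k + 1) ^ 2), ∫ u : Env,
          (Real.log (Z β (N + 1) u 0) - Real.log (Z β N u 0)) ^ 2 ∂(PP μ) ≤ (2 * k + 1 : ℝ) * D' := by
        refine (Finset.sum_le_sum fun N _ => (incr_var hμ hs h0 β N).2).trans (le_of_eq ?_)
        rw [← hD', Finset.sum_const, Nat.card_Ico, nsmul_eq_mul]
        congr 1
        have : (k + 1) ^ 2 - k ^ 2 = 2 * k + 1 := by
          have : (k + 1) ^ 2 = k ^ 2 + (2 * k + 1) := by ring
          omega
        rw [this]; push_cast; ring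
      by_cases hk : (k:ℝ) = 0
      · simp [hk]
      · have hk1 : (1:ℝ) ≤ k := by
          have : k ≠ 0 := fun h => hk (by simp [h])
          exact_mod_cast Nat.one_le_iff_ne_zero.mpr this
        rw [div_le_div_iff₀ (by positivity) (by positivity)]
        have h2 : (2 * k + 1 : ℝ) * ∑ N ∈ Finset.Ico (k ^ 2) ((k + 1) ^ 2), ∫ u : Env,
          (Real.log (Z β (N + 1) u 0) - Real.log (Z β N u 0)) ^ 2 ∂(PP μ) ≤
          (2 * k + 1 : ℝ) * ((2 * k + 1 : ℝ) * D') := mul_le_mul_of_nonneg_left h1 (by positivity)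
        have h3 : (2 * k + 1 : ℝ) * ((2 * k + 1 : ℝ) * D') ≤ 9 * D' * (k:ℝ) ^ 2 := by
          have : (2 * k + 1 : ℝ) ^ 2 ≤ (3 * k) ^ 2 := pow_le_pow_left₀ (by positivity) (by linarith) 2
          nlinarith
        have h4 : 0 ≤ (k:ℝ) ^ 2 := sq_nonneg _
        nlinarith)
    (summable_inv_sq (9 * D'))
  filter_upwards [hX, hY] with u h1 h2
  refine interp (fun N => Real.log (Z β N u 0)) p
    (fun k => ∑ N ∈ Finset.Ico (k ^ 2) ((k + 1) ^ 2), |Real.log (Z β (N + 1) u 0) - Real.log (Z β N u 0)|)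
    ?_ ?_ ?_
  · -- squares
    have h3 : Tendsto (fun k : ℕ => |(Real.log (Z β (k ^ 2) u 0) - Am μ β (k ^ 2) 0) / ((k:ℝ) ^ 2)|)
        atTop (nhds 0) := by
      have h4 := h1.sqrt
      rw [Real.sqrt_zero] at h4
      refine h4.congr fun k => ?_
      rw [← div_pow, Real.sqrt_sq_eq_abs]
    have h5 := (tendsto_zero_iff_abs_tendsto_zero _).mpr h3
    have h6 : Tendsto (fun k : ℕ => Am μ β (k ^ 2) 0 / ((k:ℝ) ^ 2)) atTop (nhds p) := by
      have h7 : Tendsto (fun k : ℕ => k ^ 2) atTop atTop := tendsto_pow_atTop (by norm_num)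
      have h8 := hp.comp h7
      refine h8.congr fun k => ?_
      simp [Function.comp_def]
    have h9 := h5.add h6
    rw [zero_add] at h9
    refine h9.congr fun k => ?_
    ring
  · intro k N hkN hN
    obtain ⟨m, rfl⟩ := Nat.exists_eq_add_of_le hkN
    have h3 : Real.log (Z β (k ^ 2 + m) u 0) - Real.log (Z β (k ^ 2) u 0) =
        ∑ N ∈ Finset.Ico (k ^ 2) (k ^ 2 + m), (Real.log (Z β (N + 1) u 0) - Real.log (Z β N u 0)) := by
      rw [Finset.sum_Ico_eq_sum_range]
      simp only [Nat.add_sub_cancel_left]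
      have := Finset.sum_range_sub (fun j => Real.log (Z β (k ^ 2 + j) u 0)) m
      rw [add_zero] at this
      rw [← this]
      simp only [add_assoc]
    rw [h3]
    refine (Finset.abs_sum_le_sum_abs _ _).trans ?_
    exact Finset.sum_le_sum_of_subset_of_nonneg (Finset.Ico_subset_Ico_right hN)
      fun _ _ _ => abs_nonneg _
  · have h4 := h2.sqrt
    rw [Real.sqrt_zero] at h4
    refine squeeze_zero (fun k => by positivity) (fun k => ?_) h4
    refine Real.le_sqrt_of_sq_le ?_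
    rw [div_pow]
    refine div_le_div_of_nonneg_right ?_ (by positivity)
    have h5 := sq_sum_le_card_mul_sum_sq (s := Finset.Ico (k ^ 2) ((k + 1) ^ 2))
      (f := fun N => |Real.log (Z β (N + 1) u 0) - Real.log (Z β N u 0)|)
    rw [Nat.card_Ico] at h5
    have h6 : (((k + 1) ^ 2 - k ^ 2 : ℕ) : ℝ) = 2 * k + 1 := by
      have : (k + 1) ^ 2 - k ^ 2 = 2 * k + 1 := by
        have : (k + 1) ^ 2 = k ^ 2 + (2 * k + 1) := by ring
        omega
      rw [this]; push_cast; ring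
    rw [h6] at h5
    simpa only [sq_abs] using h5

end Pool.Agent.helper98.DPZ
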