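import Mathlib
import Pool.Agent.helper98.DPZ.AS

set_option autoImplicit false
set_option linter.unusedSectionVars false

open MeasureTheory ProbabilityTheory Filter

namespace Pool.Agent.helper98.DPZ

variable {h : V → ℝ} {μ : Measure (V → ℝ)} [IsProbabilityMeasure μ]

theorem Z_cns (β : ℝ) (N : ℕ) (e : V → ℝ) (u : Env) (x : V) :
    Z β (N + 1) (cns e u) x = (1/6) * ∑ a : Fin 3 × Bool,
      Real.exp (β * e (x + stp a) - β ^ 2 / 2) * Z β N u (x + stp a) := rfl

theorem slice_two (hμ : IsSlice h μ) (hs : ∀ x, h (-x) = h x) (h0 : h 0 = 1) (hm : ∀ x, -1 ≤ h x)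
    (β : ℝ) (x y : V) :
    Integrable (fun e : V → ℝ => Real.exp (β * e x - β ^ 2 / 2) * Real.exp (β * e y - β ^ 2 / 2)) μ ∧
    ∫ e : V → ℝ, Real.exp (β * e x - β ^ 2 / 2) * Real.exp (β * e y - β ^ 2 / 2) ∂μ =
      Real.exp (β ^ 2 * h (x - y)) := by
  have h1 := two_point hμ hs h0 β β x y
  obtain ⟨h2, h3⟩ := exp_gauss (by fun_prop) h1
  have h4 : ∀ e : V → ℝ, Real.exp (β * e x - β ^ 2 / 2) * Real.exp (β * e y - β ^ 2 / 2) =
      Real.exp (-β ^ 2) * Real.exp (β * e x + β * e y) := by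
    intro e
    rw [← Real.exp_add, ← Real.exp_add]
    congr 1; ring
  simp_rw [h4]
  refine ⟨h2.const_mul _, ?_⟩
  rw [integral_const_mul, h3, ← Real.exp_add]
  have h5 : 0 ≤ β ^ 2 + β ^ 2 + 2 * β * β * h (x - y) := by
    have := hm (x - y)
    nlinarith [sq_nonneg β]
  rw [Real.coe_toNNReal _ h5]
  congr 1; ring

theorem second_moment (hμ : IsSlice h μ) (hs : ∀ x, h (-x) = h x) (h0 : h 0 = 1)
    (hm : ∀ x, -1 ≤ h x) (C : ℝ) (hC0 : 0 < C) (hC : ∀ z, h z ≤ C / (1 + nsq z))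
    (β : ℝ) (hβ : β ^ 2 ≤ 1 / (4320 * C)) (R : ℕ) (A : ℝ)
    (hA0 : 0 ≤ A) (hA : ∀ z : V, (∀ i, |z i| ≤ R) → 1 ≤ A * phi z) (N : ℕ) :
    ∀ x y : V, (∀ i, |x i - y i| + 2 * N ≤ R) →
      Integrable (fun u : Env => Z β N u x * Z β N u y) (PP μ) ∧
      ∫ u : Env, Z β N u x * Z β N u y ∂(PP μ) ≤ A * phi (x - y) := by
  induction N with
  | zero =>
    intro x y hxy
    have h1 : ∀ u : Env, Z β 0 u x * Z β 0 u y = 1 := fun u => by simp [Z, T_zero]
    simp_rw [h1]
    refine ⟨integrable_const _, ?_⟩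
    simp only [integral_const, probReal_univ, smul_eq_mul, mul_one]
    refine hA _ fun i => ?_
    have := hxy i
    simpa using this
  | succ N ih =>
    intro x y hxy
    have hstep : ∀ (a b : Fin 3 × Bool) (i : Fin 3), |(x + stp a) i - (y + stp b) i| + 2 * (N:ℤ) ≤ R := by
      intro a b i
      have h1 := hxy i
      push_cast at h1
      have h2 : |stp a i| ≤ 1 := by
        obtain ⟨j, c⟩ := a
        simp only [stp]
        by_cases hij : i = j
        · subst hij; cases c <;> simp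
        · simp [Pi.single_eq_of_ne hij]
      have h3 : |stp b i| ≤ 1 := by
        obtain ⟨j, c⟩ := b
        simp only [stp]
        by_cases hij : i = j
        · subst hij; cases c <;> simp
        · simp [Pi.single_eq_of_ne hij]
      have h4 : (x + stp a) i - (y + stp b) i = (x i - y i) + (stp a i - stp b i) := by
        simp only [Pi.add_apply]; ring
      rw [h4]
      have h5 := abs_add_le (x i - y i) (stp a i - stp b i)
      have h6 := abs_sub (stp a i) (stp b i)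
      linarith
    have hmp := mp_cns μ
    have hexp : ∀ (e : V → ℝ) (u : Env), Z β (N + 1) (cns e u) x * Z β (N + 1) (cns e u) y =
        ∑ a : Fin 3 × Bool, ∑ b : Fin 3 × Bool, (1/36) *
          ((Real.exp (β * e (x + stp a) - β ^ 2 / 2) * Real.exp (β * e (y + stp b) - β ^ 2 / 2)) *
          (Z β N u (x + stp a) * Z β N u (y + stp b))) := by
      intro e u
      rw [Z_cns, Z_cns]
      rw [show ∀ P Q : ℝ, (1/6) * P * ((1/6) * Q) = (1/36) * (P * Q) from fun P Q => by ring,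
        Finset.sum_mul_sum, Finset.mul_sum]
      refine Finset.sum_congr rfl fun a _ => ?_
      rw [Finset.mul_sum]
      refine Finset.sum_congr rfl fun b _ => ?_
      ring
    have hI1 : ∀ a b : Fin 3 × Bool, Integrable (fun p : (V → ℝ) × Env =>
        (Real.exp (β * p.1 (x + stp a) - β ^ 2 / 2) * Real.exp (β * p.1 (y + stp b) - β ^ 2 / 2)) *
          (Z β N p.2 (x + stp a) * Z β N p.2 (y + stp b))) (μ.prod (PP μ)) := fun a b =>
      (slice_two hμ hs h0 hm β (x + stp a) (y + stp b)).1.mul_prod (ih _ _ (hstep a b)).1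
    have hI2 : Integrable (fun p : (V → ℝ) × Env =>
        Z β (N + 1) (cns p.1 p.2) x * Z β (N + 1) (cns p.1 p.2) y) (μ.prod (PP μ)) := by
      simp_rw [hexp]
      exact integrable_finsetSum _ fun a _ => integrable_finsetSum _ fun b _ => (hI1 a b).const_mul _
    have hmeas : Measurable fun u : Env => Z β (N + 1) u x * Z β (N + 1) u y :=
      (Z_measurable β (N + 1) (fun u => u) (fun n y => meas_coord n y) x).mul
        (Z_measurable β (N + 1) (fun u => u) (fun n y => meas_coord n y) y)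
    have hint : Integrable (fun u : Env => Z β (N + 1) u x * Z β (N + 1) u y) (PP μ) := by
      rw [← hmp.map_eq, integrable_map_measure hmeas.aestronglyMeasurable hmp.measurable.aemeasurable]
      exact hI2
    refine ⟨hint, ?_⟩
    have h1 := integral_map (μ := μ.prod (PP μ)) hmp.measurable.aemeasurable
      (f := fun u : Env => Z β (N + 1) u x * Z β (N + 1) u y) hmeas.aestronglyMeasurable
    rw [hmp.map_eq] at h1
    rw [h1]
    simp_rw [hexp]
    rw [integral_finsetSum _ fun a _ => integrable_finsetSum _ fun b _ => (hI1 a b).const_mul _]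
    have h2 : ∀ a b : Fin 3 × Bool, ∫ p : (V → ℝ) × Env, (1/36) *
        ((Real.exp (β * p.1 (x + stp a) - β ^ 2 / 2) * Real.exp (β * p.1 (y + stp b) - β ^ 2 / 2)) *
          (Z β N p.2 (x + stp a) * Z β N p.2 (y + stp b))) ∂(μ.prod (PP μ)) ≤
        (1/36) * (Real.exp (β ^ 2 * h ((x - y) + stp a - stp b)) * (A * phi ((x - y) + stp a - stp b))) := by
      intro a b
      rw [integral_const_mul]
      refine mul_le_mul_of_nonneg_left ?_ (by norm_num)
      have h3 := integral_prod_mul (μ := μ) (ν := PP μ)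
        (fun e : V → ℝ => Real.exp (β * e (x + stp a) - β ^ 2 / 2) * Real.exp (β * e (y + stp b) - β ^ 2 / 2))
        (fun u : Env => Z β N u (x + stp a) * Z β N u (y + stp b))
      rw [h3, (slice_two hμ hs h0 hm β (x + stp a) (y + stp b)).2]
      have h4 : x + stp a - (y + stp b) = (x - y) + stp a - stp b := by abel
      rw [h4]
      refine mul_le_mul_of_nonneg_left ?_ (Real.exp_pos _).le
      have h5 := (ih _ _ (hstep a b)).2
      rw [h4] at h5
      exact h5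
    have h6 : ∀ a : Fin 3 × Bool, ∫ p : (V → ℝ) × Env, ∑ b : Fin 3 × Bool, (1/36) *
        ((Real.exp (β * p.1 (x + stp a) - β ^ 2 / 2) * Real.exp (β * p.1 (y + stp b) - β ^ 2 / 2)) *
          (Z β N p.2 (x + stp a) * Z β N p.2 (y + stp b))) ∂(μ.prod (PP μ)) ≤
        ∑ b : Fin 3 × Bool, (1/36) * (Real.exp (β ^ 2 * h ((x - y) + stp a - stp b)) *
          (A * phi ((x - y) + stp a - stp b))) := by
      intro a
      rw [integral_finsetSum _ fun b _ => (hI1 a b).const_mul _]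
      exact Finset.sum_le_sum fun b _ => h2 a b
    refine (Finset.sum_le_sum fun a _ => h6 a).trans ?_
    have h7 := pair_super h C hC0 hC β hβ (x - y)
    have h8 : ∑ a : Fin 3 × Bool, ∑ b : Fin 3 × Bool, (1/36) *
        (Real.exp (β ^ 2 * h ((x - y) + stp a - stp b)) * (A * phi ((x - y) + stp a - stp b))) =
        A * ((1/36) * ∑ a : Fin 3 × Bool, ∑ b : Fin 3 × Bool,
          Real.exp (β ^ 2 * h ((x - y) + stp a - stp b)) * phi ((x - y) + stp a - stp b)) := by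
      rw [Finset.mul_sum, Finset.mul_sum]
      refine Finset.sum_congr rfl fun a _ => ?_
      rw [Finset.mul_sum, Finset.mul_sum]
      refine Finset.sum_congr rfl fun b _ => ?_
      ring
    rw [h8]
    exact mul_le_mul_of_nonneg_left h7 hA0

theorem phi_lower (R : ℕ) (z : V) (hz : ∀ i, |z i| ≤ (R:ℤ)) :
    1 ≤ (100 + 3 * (R:ℝ) ^ 2) ^ ((1/4) : ℝ) * phi z := by
  have h1 : nsq z ≤ 3 * (R:ℝ) ^ 2 := by
    rw [nsq_eq]
    have h2 : ∀ i, (z i : ℝ) ^ 2 ≤ (R:ℝ) ^ 2 := by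
      intro i
      rw [← sq_abs]
      have h3 : |(z i : ℝ)| ≤ R := by exact_mod_cast hz i
      exact pow_le_pow_left₀ (abs_nonneg _) h3 2
    linarith [h2 0, h2 1, h2 2]
  have h4 := nsq_nonneg z
  have h5 : phi z = ((100 + nsq z) ^ ((1/4) : ℝ))⁻¹ := by
    rw [phi, Real.rpow_neg (by linarith)]
  rw [h5, ← div_eq_mul_inv, le_div_iff₀ (Real.rpow_pos_of_pos (by linarith) _), one_mul]
  exact Real.rpow_le_rpow (by linarith) (by linarith) (by norm_num)

theorem Z_sq_bound (hμ : IsSlice h μ) (hs : ∀ x, h (-x) = h x) (h0 : h 0 = 1)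
    (hm : ∀ x, -1 ≤ h x) (C : ℝ) (hC0 : 0 < C) (hC : ∀ z, h z ≤ C / (1 + nsq z))
    (β : ℝ) (hβ : β ^ 2 ≤ 1 / (4320 * C)) (N : ℕ) (hN : 25 ≤ N) :
    Integrable (fun u : Env => Z β N u 0 ^ 2) (PP μ) ∧
      ∫ u : Env, Z β N u 0 ^ 2 ∂(PP μ) ≤ 2 * √N := by
  have h1 := second_moment hμ hs h0 hm C hC0 hC β hβ (2 * N)
    ((100 + 3 * ((2 * N : ℕ):ℝ) ^ 2) ^ ((1/4) : ℝ)) (Real.rpow_nonneg (by positivity) _)
    (fun z hz => phi_lower (2 * N) z hz) N 0 0 (by intro i; simp)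
  have e : ∀ u : Env, Z β N u 0 * Z β N u 0 = Z β N u 0 ^ 2 := fun u => by ring
  simp_rw [e] at h1
  refine ⟨h1.1, h1.2.trans ?_⟩
  have hN' : (25:ℝ) ≤ N := by exact_mod_cast hN
  have h2 : phi (0 - 0) ≤ 1 := by
    rw [phi]
    refine Real.rpow_le_one_of_one_le_of_nonpos ?_ (by norm_num)
    have := nsq_nonneg ((0:V) - 0)
    linarith
  have h3 : (100 + 3 * ((2 * N : ℕ):ℝ) ^ 2) ^ ((1/4) : ℝ) ≤ 2 * √N := by
    have h4 : (2 * √N : ℝ) = ((2 * √N) ^ 4) ^ ((1/4) : ℝ) := by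
      rw [← Real.rpow_natCast, ← Real.rpow_mul (by positivity)]
      norm_num
    rw [h4]
    refine Real.rpow_le_rpow (by positivity) ?_ (by norm_num)
    have h5 : (2 * √(N:ℝ)) ^ 4 = 16 * (N:ℝ) ^ 2 := by
      rw [mul_pow, show (√(N:ℝ)) ^ 4 = ((√(N:ℝ)) ^ 2) ^ 2 by ring, Real.sq_sqrt (by positivity)]
      norm_num
    rw [h5]
    push_cast
    nlinarith
  have h6 : 0 ≤ (100 + 3 * ((2 * N : ℕ):ℝ) ^ 2) ^ ((1/4) : ℝ) := Real.rpow_nonneg (by positivity) _
  have h7 := phi_pos ((0:V) - 0)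
  calc _ ≤ (100 + 3 * ((2 * N : ℕ):ℝ) ^ 2) ^ ((1/4) : ℝ) * 1 := mul_le_mul_of_nonneg_left h2 h6
    _ ≤ _ := by linarith

theorem int_three {A : Type*} [MeasurableSpace A] {Q : Measure A} [IsProbabilityMeasure Q]
    (c : ℝ) {f g : A → ℝ} (hf : Integrable f Q) (hg : Integrable g Q) :
    ∫ a, (c + f a + g a) ∂Q = c + ∫ a, f a ∂Q + ∫ a, g a ∂Q := by
  have h1 : ∫ a, (c + f a + g a) ∂Q = ∫ a, (c + f a) ∂Q + ∫ a, g a ∂Q :=
    integral_add ((integrable_const c).add hf) hg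
  have h2 : ∫ a, (c + f a) ∂Q = ∫ _, c ∂Q + ∫ a, f a ∂Q := integral_add (integrable_const c) hf
  rw [h1, h2]
  simp

/-- **Main estimate**: for small `β` the free energy vanishes. -/
theorem free_zero (hμ : IsSlice h μ) (hs : ∀ x, h (-x) = h x) (h0 : h 0 = 1)
    (hm : ∀ x, -1 ≤ h x) (C : ℝ) (hC0 : 0 < C) (hC : ∀ z, h z ≤ C / (1 + nsq z))
    (β : ℝ) (hβ : β ^ 2 ≤ 1 / (4320 * C)) (p : ℝ) (hp0 : p ≤ 0)
    (hp : ∀ N : ℕ, N ≠ 0 → Am μ β N 0 / N ≤ p) : p = 0 := by
  by_contra hne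
  have hneg : p < 0 := lt_of_le_of_ne hp0 hne
  obtain ⟨D, hD⟩ : ∃ D, D = 2 * Real.exp (β ^ 2 / 2) := ⟨_, rfl⟩
  have hD0 : 0 < D := by rw [hD]; positivity
  obtain ⟨q, hq⟩ : ∃ q, q = -p := ⟨_, rfl⟩
  have hq0 : 0 < q := by linarith
  -- the inequality for every large N
  have key : ∀ N : ℕ, 25 ≤ N → 2 * Real.log 2 ≤ q * N → 3/8 ≤ 32 * D / (q ^ 2 * √N) := by
    intro N hN hlog
    have hN' : (25:ℝ) ≤ N := by exact_mod_cast hN
    have hN0 : (0:ℝ) < N := by linarith
    have hsq0 : 0 < √(N:ℝ) := Real.sqrt_pos.mpr hN0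
    have hss : √(N:ℝ) * √(N:ℝ) = N := Real.mul_self_sqrt hN0.le
    obtain ⟨hi2, hb2⟩ := Z_sq_bound hμ hs h0 hm C hC0 hC β hβ N hN
    have hZi : Integrable (fun u : Env => Z β N u 0) (PP μ) := by
      have := Z_scl_integrable hμ hs h0 β (fun _ => 1) N 0
      simpa only [scl_one] using this
    have hVi : Integrable (fun u : Env => (Real.log (Z β N u 0) - Am μ β N 0) ^ 2) (PP μ) :=
      sq_sub_integrable (logZ_meas β _ 0).aestronglyMeasurable aestronglyMeasurable_const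
        (logZ_sq_int hμ hs h0 β _ 0) (integrable_const _)
    have hV := logZ_var hμ hs h0 β N 0
    rw [← hD] at hV
    have hA : Am μ β N 0 ≤ -(q * N) := by
      have := hp N (by omega)
      rw [div_le_iff₀ hN0] at this
      rw [hq]; linarith
    obtain ⟨lam, hlam⟩ : ∃ lam : ℝ, lam = 1 / (8 * √(N:ℝ)) := ⟨_, rfl⟩
    have hlam0 : 0 < lam := by rw [hlam]; positivity
    obtain ⟨κ, hκ⟩ : ∃ κ : ℝ, κ = 1 / (2 * lam) * (4 / (q * N) ^ 2) := ⟨_, rfl⟩
    have hκ0 : 0 ≤ κ := by rw [hκ]; positivity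
    have hpt : ∀ u : Env, Z β N u 0 ≤ 1/2 + lam / 2 * Z β N u 0 ^ 2 +
        κ * (Real.log (Z β N u 0) - Am μ β N 0) ^ 2 := by
      intro u
      have hz := Z_pos β N u 0
      by_cases hc : Z β N u 0 ≤ 1/2
      · have h1 : 0 ≤ lam / 2 * Z β N u 0 ^ 2 := by positivity
        have h2 : 0 ≤ κ * (Real.log (Z β N u 0) - Am μ β N 0) ^ 2 := by positivity
        linarith
      · push Not at hc
        have h1 : -Real.log 2 ≤ Real.log (Z β N u 0) := by
          rw [← Real.log_inv]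
          exact Real.log_le_log (by norm_num) (by rw [inv_eq_one_div]; exact hc.le)
        have h2 : q * N / 2 ≤ Real.log (Z β N u 0) - Am μ β N 0 := by linarith
        have h3 : 1 ≤ (4 / (q * N) ^ 2) * (Real.log (Z β N u 0) - Am μ β N 0) ^ 2 := by
          have h4 : (q * N / 2) ^ 2 ≤ (Real.log (Z β N u 0) - Am μ β N 0) ^ 2 :=
            pow_le_pow_left₀ (by positivity) h2 2
          have h5 : (4 / (q * N) ^ 2) * (q * N / 2) ^ 2 = 1 := by field_simp; norm_num
          rw [← h5]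
          exact mul_le_mul_of_nonneg_left h4 (by positivity)
        have h6 : Z β N u 0 ≤ lam / 2 * Z β N u 0 ^ 2 + 1 / (2 * lam) := by
          have h7 : 0 ≤ (lam * Z β N u 0 - 1) ^ 2 / (2 * lam) := by positivity
          have h8 : (lam * Z β N u 0 - 1) ^ 2 / (2 * lam) =
            lam / 2 * Z β N u 0 ^ 2 - Z β N u 0 + 1 / (2 * lam) := by field_simp; ring
          linarith
        have h9 : 1 / (2 * lam) ≤ κ * (Real.log (Z β N u 0) - Am μ β N 0) ^ 2 := by
          rw [hκ, mul_assoc]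
          exact le_mul_of_one_le_right (by positivity) h3
        linarith
    have hint := integral_mono hZi (((integrable_const (1/2:ℝ)).add (hi2.const_mul (lam / 2))).add
      (hVi.const_mul κ)) hpt
    rw [Z_integral hμ hs h0] at hint
    have hrhs : ∫ u : Env, (1/2 + lam / 2 * Z β N u 0 ^ 2 +
        κ * (Real.log (Z β N u 0) - Am μ β N 0) ^ 2) ∂(PP μ) =
        1/2 + lam / 2 * ∫ u : Env, Z β N u 0 ^ 2 ∂(PP μ) +
        κ * ∫ u : Env, (Real.log (Z β N u 0) - Am μ β N 0) ^ 2 ∂(PP μ) := by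
      rw [int_three (1/2) (hi2.const_mul (lam / 2)) (hVi.const_mul κ),
        integral_const_mul, integral_const_mul]
    have hint' : 1 ≤ 1/2 + lam / 2 * ∫ u : Env, Z β N u 0 ^ 2 ∂(PP μ) +
        κ * ∫ u : Env, (Real.log (Z β N u 0) - Am μ β N 0) ^ 2 ∂(PP μ) := by
      rw [← hrhs]; exact hint
    have h10 : lam / 2 * ∫ u : Env, Z β N u 0 ^ 2 ∂(PP μ) ≤ 1/8 := by
      have : lam / 2 * ∫ u : Env, Z β N u 0 ^ 2 ∂(PP μ) ≤ lam / 2 * (2 * √N) :=
        mul_le_mul_of_nonneg_left hb2 (by positivity)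
      refine this.trans (le_of_eq ?_)
      rw [hlam]; field_simp
    have h11 : κ * ∫ u : Env, (Real.log (Z β N u 0) - Am μ β N 0) ^ 2 ∂(PP μ) ≤ κ * (N * D) :=
      mul_le_mul_of_nonneg_left hV hκ0
    have h12 : κ * (N * D) = 16 * D / (q ^ 2 * √N) := by
      rw [hκ, hlam]
      field_simp
      nlinarith
    have h13 : 16 * D / (q ^ 2 * √(N:ℝ)) ≤ 32 * D / (q ^ 2 * √(N:ℝ)) := by
      gcongr; norm_num
    linarith
  have hlim : Tendsto (fun N : ℕ => 32 * D / (q ^ 2 * √(N:ℝ))) atTop (nhds 0) := by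
    have h1 : Tendsto (fun N : ℕ => √(N:ℝ)) atTop atTop :=
      Real.tendsto_sqrt_atTop.comp tendsto_natCast_atTop_atTop
    exact tendsto_const_nhds.div_atTop (h1.const_mul_atTop (by positivity))
  have h2 := (tendsto_order.mp hlim).2 (3/8) (by norm_num)
  have h3 : ∀ᶠ N : ℕ in atTop, 2 * Real.log 2 ≤ q * N := by
    have : Tendsto (fun N : ℕ => q * (N:ℝ)) atTop atTop :=
      tendsto_natCast_atTop_atTop.const_mul_atTop hq0
    exact this.eventually_ge_atTop _
  obtain ⟨N, hN1, hN2, hN3⟩ := (h2.and (h3.and (eventually_ge_atTop 25))).exists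
  have := key N hN3 hN2
  linarith

end Pool.Agent.helper98.DPZ
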