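import Mathlib
import Pool.Agent.helper98.DPZ.Second

set_option autoImplicit false
set_option linter.unusedSectionVars false

open MeasureTheory ProbabilityTheory Filter

namespace Pool.Agent.helper98.DPZ

variable {h : V → ℝ} {μ : Measure (V → ℝ)} [IsProbabilityMeasure μ]

/-- the product environment has the required joint Gaussian law -/
theorem joint_law (hμ : IsSlice h μ)
    (hpsd : ∀ (s : Finset V) (a : V → ℝ), 0 ≤ ∑ x ∈ s, ∑ y ∈ s, a x * a y * h (x - y))
    (s : Finset (ℕ × V)) (a : ℕ × V → ℝ) :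
    (PP μ).map (fun w => ∑ i ∈ s, a i * w i.1 i.2) =
      gaussianReal 0 (Real.toNNReal (∑ i ∈ s, ∑ j ∈ s,
        a i * a j * (if i.1 = j.1 then h (i.2 - j.2) else 0))) := by
  classical
  obtain ⟨F, hF⟩ : ∃ F : ℕ → Finset (ℕ × V), F = fun n => s.filter (fun i => i.1 = n) := ⟨_, rfl⟩
  obtain ⟨v, hv⟩ : ∃ v : ℕ → ℝ, v = fun n => ∑ i ∈ F n, ∑ j ∈ F n, a i * a j * h (i.2 - j.2) :=
    ⟨_, rfl⟩
  have hFmem : ∀ n i, i ∈ F n → i.1 = n := fun n i hi => by
    rw [hF] at hi; exact (Finset.mem_filter.mp hi).2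
  have hinj : ∀ n, Set.InjOn (fun i : ℕ × V => i.2) (F n : Set (ℕ × V)) := by
    intro n i hi j hj hij
    exact Prod.ext ((hFmem n i hi).trans (hFmem n j hj).symm) hij
  -- sums over the projected fibres
  have himg : ∀ (n : ℕ) (g : V → ℝ), ∑ x ∈ (F n).image (fun i => i.2), a (n, x) * g x =
      ∑ i ∈ F n, a i * g i.2 := by
    intro n g
    rw [Finset.sum_image (hinj n)]
    refine Finset.sum_congr rfl fun i hi => ?_
    have : (n, i.2) = i := Prod.ext (hFmem n i hi).symm rfl
    rw [this]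
  have hquad : ∀ n, ∑ x ∈ (F n).image (fun i => i.2), ∑ y ∈ (F n).image (fun i => i.2),
      a (n, x) * a (n, y) * h (x - y) = v n := by
    intro n
    rw [hv]
    have e1 : ∀ x, ∑ y ∈ (F n).image (fun i => i.2), a (n, x) * a (n, y) * h (x - y) =
        a (n, x) * ∑ j ∈ F n, a j * h (x - j.2) := by
      intro x
      rw [← himg n (fun y => h (x - y)), Finset.mul_sum]
      refine Finset.sum_congr rfl fun y _ => by ring
    simp_rw [e1]
    rw [himg n (fun x => ∑ j ∈ F n, a j * h (x - j.2))]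
    refine Finset.sum_congr rfl fun i _ => ?_
    rw [Finset.mul_sum]
    refine Finset.sum_congr rfl fun j _ => by ring
  have hv0 : ∀ n, 0 ≤ v n := fun n => by rw [← hquad n]; exact hpsd _ _
  have hX : ∀ n, μ.map (fun e : V → ℝ => ∑ i ∈ F n, a i * e i.2) =
      gaussianReal 0 (Real.toNNReal (v n)) := by
    intro n
    have h1 := hμ.law ((F n).image (fun i => i.2)) (fun x => a (n, x))
    rw [hquad n] at h1
    rw [← h1]
    congr 1
    ext e
    exact (himg n e).symm
  have h2 := time_sum (μ := μ) (fun n e => ∑ i ∈ F n, a i * e i.2)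
    (fun n => Finset.measurable_sum _ fun i _ => (measurable_pi_apply _).const_mul _)
    (fun n => Real.toNNReal (v n)) hX (s.image (fun i => i.1))
  have hmaps : ∀ i ∈ s, i.1 ∈ s.image (fun i => i.1) := fun i hi => Finset.mem_image_of_mem _ hi
  have h3 : (fun w : Env => ∑ n ∈ s.image (fun i => i.1), ∑ i ∈ F n, a i * w n i.2) =
      fun w : Env => ∑ i ∈ s, a i * w i.1 i.2 := by
    ext w
    rw [← Finset.sum_fiberwise_of_maps_to hmaps]
    refine Finset.sum_congr rfl fun n _ => ?_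
    rw [hF]
    refine Finset.sum_congr rfl fun i hi => ?_
    rw [(Finset.mem_filter.mp hi).2]
  have h4 : ∑ n ∈ s.image (fun i => i.1), v n =
      ∑ i ∈ s, ∑ j ∈ s, a i * a j * (if i.1 = j.1 then h (i.2 - j.2) else 0) := by
    rw [← Finset.sum_fiberwise_of_maps_to hmaps]
    refine Finset.sum_congr rfl fun n _ => ?_
    rw [hv]
    simp only
    have h5 : F n = s.filter (fun i => i.1 = n) := by rw [hF]
    rw [h5]
    refine Finset.sum_congr rfl fun i hi => ?_
    have hi' := (Finset.mem_filter.mp hi).2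
    rw [Finset.sum_filter]
    refine Finset.sum_congr rfl fun j _ => ?_
    rw [hi']
    by_cases hj : j.1 = n
    · simp [hj]
    · have : ¬ n = j.1 := fun h => hj h.symm
      simp [hj, this]
  rw [← h4, ← h3, h2, Real.toNNReal_sum_of_nonneg fun n _ => hv0 n]

/-- the partition function of the problem -/
theorem frozen_eq (β : ℝ) (N : ℕ) (w : Env) :
    (((6 : ℝ) ^ N)⁻¹ * Finset.sum Finset.univ (fun σ : Fin N → Fin 3 × Bool =>
      Real.exp (Finset.sum (Finset.Icc 1 N) (fun n =>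
        β * w n (Finset.sum (Finset.univ.filter (fun k : Fin N => k.val < n))
            (fun k => (Pi.single (σ k).1 (if (σ k).2 then (1 : ℤ) else -1) : Fin 3 → ℤ)))
          - β ^ 2 / 2)))) = Z β N (fun n => w (n + 1)) 0 := by
  rw [Z_eq]
  congr 1
  refine Finset.sum_congr rfl fun σ _ => ?_
  congr 1
  rw [show Finset.Icc 1 N = Finset.Ico 1 (N + 1) from rfl, Finset.sum_Ico_eq_sum_range]
  simp only [Nat.add_sub_cancel]
  refine Finset.sum_congr rfl fun n _ => ?_
  rw [zero_add, add_comm 1 n]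
  rfl

theorem hh_bound (z : V) : hh z ≤ 1 / (1 + nsq z) := by
  unfold hh; rw [one_div]

/-- There is a model with `h(x) = 1/(1+|x|²)` for which the free energy exists for every `β` and
vanishes for all small `β`. -/
theorem exists_model : ∃ (P : Measure Env) (_ : IsProbabilityMeasure P) (p : ℝ → ℝ),
    (∀ (s : Finset (ℕ × V)) (a : ℕ × V → ℝ),
      P.map (fun w => ∑ i ∈ s, a i * w i.1 i.2) =
      gaussianReal 0 (Real.toNNReal (∑ i ∈ s, ∑ j ∈ s,
        a i * a j * (if i.1 = j.1 then hh (i.2 - j.2) else 0)))) ∧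
    (∀ β : ℝ, ∀ᵐ w ∂P, Tendsto (fun N : ℕ => Real.log (Z β N (fun n => w (n + 1)) 0) / N)
      atTop (nhds (p β))) ∧
    (∀ β : ℝ, β ^ 2 ≤ 1 / 4320 → p β = 0) := by
  obtain ⟨μ, hμP, hμ⟩ := exists_field (ι := V) (fun x y => hh (x - y))
    (fun x y => by rw [← hh_neg (x - y)]; congr 1; abel) psd_hh
  have hS : IsSlice hh μ := ⟨hμ⟩
  have hex : ∀ β : ℝ, ∃ p : ℝ, p ≤ 0 ∧ Tendsto (fun N : ℕ => Am μ β N 0 / N) atTop (nhds p) ∧
      ∀ N : ℕ, N ≠ 0 → Am μ β N 0 / N ≤ p := fun β => exists_free hS hh_neg hh_zero β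
  choose p hp1 hp2 hp3 using hex
  refine ⟨PP μ, inferInstance, p, joint_law hS psd_hh, ?_, ?_⟩
  · intro β
    have h1 := as_conv hS hh_neg hh_zero β (p β) (hp2 β)
    exact (mp_sh μ).quasiMeasurePreserving.ae h1
  · intro β hβ
    refine free_zero hS hh_neg hh_zero (fun x => ?_) 1 one_pos hh_bound β ?_ (p β) (hp1 β) (hp3 β)
    · have := hh_nonneg x; linarith
    · rw [mul_one]; exact hβ

end Pool.Agent.helper98.DPZ
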