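import Mathlib
import Pool.Agent.helper98.DPZ.Final

set_option autoImplicit false
set_option linter.unusedSectionVars false

open MeasureTheory ProbabilityTheory Filter

namespace Pool.Agent.helper98.DPZ

theorem measurable_uncurryE : Measurable (fun (w : Env) (i : ℕ × V) => w i.1 i.2) :=
  measurable_pi_lambda _ fun i => meas_coord i.1 i.2

theorem measurable_curryE : Measurable (fun (g : ℕ × V → ℝ) (n : ℕ) (x : V) => g (n, x)) :=
  measurable_pi_lambda _ fun n => measurable_pi_lambda _ fun x => measurable_pi_apply (n, x)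

/-- two environments (laws on `Env`) with the same finite linear functionals agree -/
theorem env_unique (P Q : Measure Env) [IsProbabilityMeasure P] [IsProbabilityMeasure Q]
    (H : ∀ (s : Finset (ℕ × V)) (a : ℕ × V → ℝ),
      P.map (fun w => ∑ i ∈ s, a i * w i.1 i.2) = Q.map (fun w => ∑ i ∈ s, a i * w i.1 i.2)) :
    P = Q := by
  have i1 : IsProbabilityMeasure (P.map (fun (w : Env) (i : ℕ × V) => w i.1 i.2)) :=
    Measure.isProbabilityMeasure_map measurable_uncurryE.aemeasurable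
  have i2 : IsProbabilityMeasure (Q.map (fun (w : Env) (i : ℕ × V) => w i.1 i.2)) :=
    Measure.isProbabilityMeasure_map measurable_uncurryE.aemeasurable
  have h1 : P.map (fun (w : Env) (i : ℕ × V) => w i.1 i.2) =
      Q.map (fun (w : Env) (i : ℕ × V) => w i.1 i.2) := by
    refine field_unique _ _ fun s a => ?_
    rw [Measure.map_map (by fun_prop) measurable_uncurryE,
      Measure.map_map (by fun_prop) measurable_uncurryE]
    exact H s a
  have h2 : ∀ R : Measure Env, (R.map (fun (w : Env) (i : ℕ × V) => w i.1 i.2)).map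
      (fun (g : ℕ × V → ℝ) (n : ℕ) (x : V) => g (n, x)) = R := by
    intro R
    rw [Measure.map_map measurable_curryE measurable_uncurryE]
    exact Measure.map_id
  rw [← h2 P, ← h2 Q, h1]

theorem corr_bound (h : V → ℝ) (M : ℝ) (hM : ∀ x, |h x| ≤ M)
    (hlim : Tendsto (fun x : V => h x * ∑ i : Fin 3, ((x i : ℝ)) ^ 2) cofinite (nhds 1)) :
    ∃ C : ℝ, 0 < C ∧ ∀ z, h z ≤ C / (1 + nsq z) := by
  have h1 : ∀ᶠ x : V in cofinite, h x * nsq x < 2 :=
    (tendsto_order.mp hlim).2 2 (by norm_num)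
  rw [eventually_cofinite] at h1
  obtain ⟨B, hB⟩ : ∃ B : ℝ, ∀ x ∈ h1.toFinset, h x * nsq x ≤ B := by
    refine ⟨∑ x ∈ h1.toFinset, |h x * nsq x|, fun x hx => ?_⟩
    exact (le_abs_self _).trans (Finset.single_le_sum (f := fun x => |h x * nsq x|)
      (fun _ _ => abs_nonneg _) hx)
  refine ⟨M + |B| + 2, ?_, fun z => ?_⟩
  · have := (abs_nonneg _).trans (hM 0)
    have := abs_nonneg B
    linarith
  · have hn := nsq_nonneg z
    rw [le_div_iff₀ (by linarith)]
    have h2 : h z ≤ M := (le_abs_self _).trans (hM z)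
    have h3 : h z * nsq z ≤ |B| + 2 := by
      by_cases hz : h z * nsq z < 2
      · have := abs_nonneg B; linarith
      · have := hB z (by simpa using hz)
        have := le_abs_self B
        linarith
    nlinarith

theorem corr_ge (h : V → ℝ) (hs : ∀ x, h (-x) = h x) (h0 : h 0 = 1)
    (hpsd : ∀ (s : Finset V) (a : V → ℝ), 0 ≤ ∑ x ∈ s, ∑ y ∈ s, a x * a y * h (x - y)) (x : V) :
    -1 ≤ h x := by
  classical
  by_cases hx : x = 0
  · rw [hx, h0]; norm_num
  · have h1 := hpsd {x, 0} (fun _ => 1)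
    rw [Finset.sum_pair hx, Finset.sum_pair hx, Finset.sum_pair hx] at h1
    simp only [sub_self, sub_zero, zero_sub, hs, h0] at h1
    linarith

/-- The general theorem: for every admissible correlation and every Gaussian environment the free
energy exists for all `β` and vanishes for all small `β`. -/
theorem general (h : V → ℝ) (hM : ∃ M : ℝ, ∀ x, |h x| ≤ M) (hs : ∀ x, h (-x) = h x)
    (hpsd : ∀ (s : Finset V) (a : V → ℝ), 0 ≤ ∑ x ∈ s, ∑ y ∈ s, a x * a y * h (x - y))
    (h0 : h 0 = 1)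
    (hlim : Tendsto (fun x : V => h x * ∑ i : Fin 3, ((x i : ℝ)) ^ 2) cofinite (nhds 1)) :
    ∃ (p : ℝ → ℝ) (β₀ : ℝ), 0 < β₀ ∧ (∀ β ∈ Set.Ioo 0 β₀, p β = 0) ∧
      ∀ (Ω : Type) [MeasurableSpace Ω] (P : Measure Ω) [IsProbabilityMeasure P]
      (ω : ℕ → V → Ω → ℝ), (∀ n x, Measurable (ω n x)) →
      (∀ (s : Finset (ℕ × V)) (a : ℕ × V → ℝ),
        P.map (fun w => ∑ i ∈ s, a i * ω i.1 i.2 w) =
          gaussianReal 0 (Real.toNNReal
            (∑ i ∈ s, ∑ j ∈ s, a i * a j * (if i.1 = j.1 then h (i.2 - j.2) else 0)))) →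
      ∀ β : ℝ, ∀ᵐ w ∂P, Tendsto (fun N : ℕ => Real.log (Z β N (fun n x => ω (n + 1) x w) 0) / N)
        atTop (nhds (p β)) := by
  obtain ⟨M, hM⟩ := hM
  obtain ⟨C, hC0, hC⟩ := corr_bound h M hM hlim
  obtain ⟨μ, hμP, hμ⟩ := exists_field (ι := V) (fun x y => h (x - y))
    (fun x y => by rw [← hs (x - y)]; congr 1; abel) hpsd
  have hS : IsSlice h μ := ⟨hμ⟩
  have hex : ∀ β : ℝ, ∃ p : ℝ, p ≤ 0 ∧ Tendsto (fun N : ℕ => Am μ β N 0 / N) atTop (nhds p) ∧
      ∀ N : ℕ, N ≠ 0 → Am μ β N 0 / N ≤ p := fun β => exists_free hS hs h0 β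
  choose p hp1 hp2 hp3 using hex
  refine ⟨p, √(1 / (4320 * C)), Real.sqrt_pos.mpr (by positivity), ?_, ?_⟩
  · intro β hβ
    refine free_zero hS hs h0 (corr_ge h hs h0 hpsd) C hC0 hC β ?_ (p β) (hp1 β) (hp3 β)
    have h1 : β ^ 2 ≤ (√(1 / (4320 * C))) ^ 2 := pow_le_pow_left₀ hβ.1.le hβ.2.le 2
    rwa [Real.sq_sqrt (by positivity)] at h1
  · intro Ω _ P _ ω hω hlaw β
    have hΦ : Measurable (fun (w : Ω) (n : ℕ) (x : V) => ω n x w) :=
      measurable_pi_lambda _ fun n => measurable_pi_lambda _ fun x => hω n x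
    have i1 : IsProbabilityMeasure (P.map (fun (w : Ω) (n : ℕ) (x : V) => ω n x w)) :=
      Measure.isProbabilityMeasure_map hΦ.aemeasurable
    have hEq : P.map (fun (w : Ω) (n : ℕ) (x : V) => ω n x w) = PP μ := by
      refine env_unique _ _ fun s a => ?_
      rw [joint_law hS hpsd s a, ← hlaw s a, Measure.map_map _ hΦ]
      · rfl
      · exact Finset.measurable_sum _ fun i _ => (meas_coord i.1 i.2).const_mul _
    have h1 := as_conv hS hs h0 β (p β) (hp2 β)
    have h2 := (mp_sh μ).quasiMeasurePreserving.ae h1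
    rw [← hEq] at h2
    exact ae_of_ae_map hΦ.aemeasurable h2

end Pool.Agent.helper98.DPZ
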